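import Mathlib
import Pool.Agent.TOR.Defs
import Pool.Agent.Helper17.Moser
import Pool.Agent.Helper17.SympFamily
import Pool.Agent.H27.Torus.Bounded

set_option maxSynthPendingDepth 3

open scoped ContDiff Distributions Topology unitInterval
open Set Function TopologicalSpace

namespace Pool.Agent.TOL

open Pool.Agent.Helper17 Pool.Agent.TOR

/-! ### Commutators with translations -/

section comm

variable {n : ℕ}

/-- The commutator of the translation by `v` and `g`. -/
def cm (v : Phase n) (g : Equiv.Perm (Phase n)) : Equiv.Perm (Phase n) :=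
  Equiv.addRight v * g * (Equiv.addRight v)⁻¹ * g⁻¹

lemma cm_apply (v : Phase n) (g : Equiv.Perm (Phase n)) (x : Phase n) :
    cm v g x = g (g.symm x - v) + v := by
  change g (g.symm x + -v) + v = _
  rw [← sub_eq_add_neg]

/-- The iterated commutators of `g` with the translations by `v 0`, `v 1`, …, `v (k - 1)`. -/
def word : (k : ℕ) → (Fin k → Phase n) → Equiv.Perm (Phase n) → Equiv.Perm (Phase n)
  | 0, _, g => g
  | k + 1, v, g => cm (v (Fin.last k)) (word k (fun i => v i.castSucc) g)

end comm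

/-! ### Families of smooth maps and homotopies at level `j` -/

section lev

variable {n N : ℕ} (b : Module.Basis (Fin N) ℝ (Phase n))

/-- Families of smooth maps with admissible derivatives at level `j`: commuting with the
translations by `b i`, `i < j`, and equal to the identity where a coordinate of index `≥ j` is
larger than `R`. -/
structure ALev (j : ℕ) (R : ℝ) {T : Type} [TopologicalSpace T] (F : T → Phase n → Phase n) :
    Prop where
  cf : CF F
  adm : ∀ t x, Admissible (fderiv ℝ (F t) x)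
  per : ∀ t, ∀ i : Fin N, (i : ℕ) < j → ∀ x, F t (x + b i) = F t x + b i
  supp : ∀ t, ∀ x ∉ slab b j R, F t x = x

/-- Homotopies of families of admissible maps at level `j`, constant (equal to the identity) on
`T0`. -/
def AH (j : ℕ) {T : Type} [TopologicalSpace T] (T0 : Set T) (F0 F1 : T → Phase n → Phase n) :
    Prop :=
  ∃ (R : ℝ) (F : T × I → Phase n → Phase n), ALev b j R F ∧ (∀ t x, F (t, 0) x = F0 t x) ∧
    (∀ t x, F (t, 1) x = F1 t x) ∧ ∀ t ∈ T0, ∀ s x, F (t, s) x = x

/-- Homotopies of families of symplectomorphisms at level `j`, constant (equal to the identity) on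
`T0`. -/
def LH (j : ℕ) {T : Type} [TopologicalSpace T] (T0 : Set T)
    (g0 g1 : T → Equiv.Perm (Phase n)) : Prop :=
  ∃ (R : ℝ) (F : T × I → Equiv.Perm (Phase n)), Lev b j R F ∧ (∀ t, F (t, 0) = g0 t) ∧
    (∀ t, F (t, 1) = g1 t) ∧ ∀ t ∈ T0, ∀ s, F (t, s) = 1

/-- `P` is the periodization of `g` in the direction `b j`; the points moved by `g` satisfy
`δ ≤ ξ_j ≤ 1 - δ`. -/
structure Per1 (j : Fin N) (δ R : ℝ) {T : Type} [TopologicalSpace T] (T0 : Set T)
    (g P : T → Equiv.Perm (Phase n)) : Prop where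
  lev : Lev b (j : ℕ) R g
  levP : Lev b ((j : ℕ) + 1) R P
  margin : ∀ t x, g t x ≠ x → δ ≤ b.repr x j ∧ b.repr x j ≤ 1 - δ
  eq : ∀ t x, 0 ≤ b.repr x j → b.repr x j ≤ 1 → P t x = g t x
  rel : ∀ t ∈ T0, g t = 1

/-- The parameters `(t, a)` with `t ∈ T0` or `a ∈ {0, 1}`. -/
def relI {T : Type} (T0 : Set T) : Set (T × I) := {p | p.1 ∈ T0 ∨ p.2 = 0 ∨ p.2 = 1}

/-- Families of symplectic maps whose displacement is invariant under the translation by `b i`
outside the slab `|ξ_i| < R`, for every `i`. -/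
structure Tame (R : ℝ) {T : Type} [TopologicalSpace T] (V : T → Phase n → Phase n) : Prop where
  cf : CF V
  symp : ∀ t x u v, omegaStd (fderiv ℝ (V t) x u) (fderiv ℝ (V t) x v) = omegaStd u v
  inv : H27.Torus.InvOutside b R (fun t x => V t x - x)

/-- Truncation of the loops `a ↦ cm (a b_j) (P t)`: on `ξ_j ≤ 0` they are not changed, for
`ξ_j ≥ 1` they become the identity, and for `a = 1` one obtains `g`. -/
structure TrFam (j : Fin N) (R : ℝ) {T : Type} [TopologicalSpace T] (T0 : Set T)
    (g P : T → Equiv.Perm (Phase n)) (V : T × I → Phase n → Phase n) : Prop where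
  tame : Tame b R V
  zero : ∀ t x, V (t, 0) x = x
  one : ∀ t x, V (t, 1) x = g t x
  left : ∀ t (a : I) x, b.repr x j ≤ 0 → V (t, a) x = cm ((a : ℝ) • b j) (P t) x
  right : ∀ t (a : I) x, 1 ≤ b.repr x j → V (t, a) x = x
  per : ∀ p, ∀ i : Fin N, (i : ℕ) < (j : ℕ) → ∀ x, V p (x + b i) = V p x + b i
  supp : ∀ p, ∀ i : Fin N, (j : ℕ) < (i : ℕ) → ∀ x, R < |b.repr x i| → V p x = x
  rel : ∀ t ∈ T0, ∀ (a : I) x, V (t, a) x = x

/-- Smoothing of the loop `W` in the parameter: a smooth function of `a ∈ ℝ`, equal to `W 0` for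
`a ≤ 0` and to `W 1` for `a ≥ 1`. -/
noncomputable def grid (M : ℕ) (W : I → Phase n → Phase n) (a : ℝ) (x : Phase n) : Phase n :=
  W 0 x + ∑ m ∈ Finset.range M, Real.smoothTransition (M * a - m) •
    (W (pr ((m + 1) / M)) x - W (pr (m / M)) x)

end lev

end Pool.Agent.TOL
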