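import Mathlib
import Pool.Agent.TOL.Defs

set_option maxSynthPendingDepth 3

open scoped ContDiff Distributions Topology unitInterval
open Set Function TopologicalSpace

namespace Pool.Agent.TOL

open Pool.Agent.Helper17 Pool.Agent.TOR

/-- [AHc] Homotopies of families of admissible maps: symmetry, transitivity, and composition on
the right with a family of symplectomorphisms. Proof: `unitInterval.symm`; gluing as in
`Helper17.AdmPath.trans` (`half1`, `half2`, `Continuous.if_le`, `CFk.of_iteratedFDeriv`), with the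
larger of the two radii; `Admissible.comp_symplectic`. -/
def St_AHc : Prop :=
  ∀ {n N : ℕ} (b : Module.Basis (Fin N) ℝ (Phase n)) (j : ℕ) (T : Type) [TopologicalSpace T]
    (T0 : Set T) (F0 F1 F2 : T → Phase n → Phase n),
    (AH b j T0 F0 F1 → AH b j T0 F1 F0) ∧
    (AH b j T0 F0 F1 → AH b j T0 F1 F2 → AH b j T0 F0 F2) ∧
    ∀ (R : ℝ) (g : T → Equiv.Perm (Phase n)), Lev b j R g → (∀ t ∈ T0, g t = 1) →
      AH b j T0 F0 F1 → AH b j T0 (fun t x => F0 t (g t x)) (fun t x => F1 t (g t x))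

/-- [MoserLev] Moser's method for families at level `j`. Proof: as `Helper17.moser_family`
(field `moserField Ψ`, `CF_moserField`, `exists_flow`, `flow_ode`, `moser_conservation`); the field
is invariant under the translations by `b i`, `i < j`, and zero outside the slab, hence bounded
derivative by `TOR.thm_Box`; the flow commutes with `b i` by uniqueness of integral curves, as in
`TOR.HamFlow` (`ham_unique`, applied on `[0, s]`, or to the field of the rescaled time). -/
def St_MoserLev : Prop :=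
  ∀ {n N : ℕ} (b : Module.Basis (Fin N) ℝ (Phase n)) (j : ℕ) (T : Type) [TopologicalSpace T]
    [CompactSpace T] (R : ℝ) (Ψ : T → Phase n → Phase n), ALev b j R Ψ →
    ∃ ρ : T × Icc (0 : ℝ) 1 → Phase n → Phase n, CF ρ ∧
      (∀ (t : T) (s : Icc (0 : ℝ) 1) (x v w : Phase n),
        (1 - (s : ℝ)) * omegaStd (fderiv ℝ (ρ (t, s)) x v) (fderiv ℝ (ρ (t, s)) x w) +
        s * omegaStd (fderiv ℝ (Ψ t) (ρ (t, s) x) (fderiv ℝ (ρ (t, s)) x v))
          (fderiv ℝ (Ψ t) (ρ (t, s) x) (fderiv ℝ (ρ (t, s)) x w)) = omegaStd v w) ∧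
      (∀ p, ∀ x ∉ slab b j R, ρ p x = x) ∧
      (∀ t x, ρ (t, 0) x = x) ∧
      (∀ t, (∀ x, Ψ t x = x) → ∀ s x, ρ (t, s) x = x) ∧
      ∀ p, ∀ i : Fin N, (i : ℕ) < j → ∀ x, ρ p (x + b i) = ρ p x + b i

/-- [Bij] A smooth family of symplectic maps at level `j < N` consists of bijections, and the
inverses form a smooth family. Proof: bounded displacement by `TOR.thm_Box`; bijectivity as in
`Helper17.bijective_of_injective_fderiv` (the map is proper because the displacement is bounded;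
the set of points with at most one preimage is clopen and contains the points with `|ξ_j|` large);
`TOR.tor_CF_inverse`. -/
def St_Bij : Prop :=
  ∀ {n N : ℕ} (b : Module.Basis (Fin N) ℝ (Phase n)) (j : ℕ) (T : Type) [TopologicalSpace T]
    [CompactSpace T] (R : ℝ) (F : T → Phase n → Phase n), j < N → CF F →
    (∀ t x u v, omegaStd (fderiv ℝ (F t) x u) (fderiv ℝ (F t) x v) = omegaStd u v) →
    (∀ t, ∀ i : Fin N, (i : ℕ) < j → ∀ x, F t (x + b i) = F t x + b i) →
    (∀ t, ∀ x ∉ slab b j R, F t x = x) →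
    ∃ G : T → Equiv.Perm (Phase n), Lev b j R G ∧ ∀ t x, G t x = F t x

/-- [Sympl] Making families of admissible maps symplectic. Proof, first part: `Φ t = Ψ t ∘ ρ (t, 1)`
with `ρ` from [MoserLev], a bijection by [Bij]; the homotopy `Ψ t ∘ ρ (t, s)` is admissible by
`Helper17.admissible_moser`. Second part: `ρ` from [MoserLev] for the homotopy `F` over `T × I`; the
homotopy is `(t, s) ↦ F (t, c s) ∘ ρ ((t, c s), r s)` with `r s = min 1 (min (3 s) (3 - 3 s))` and
`c s = pr (3 s - 1)`: for all `s`, `r s = 1` or `c s = 0` or `c s = 1`, and for `c ∈ {0, 1}` the map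
`F (t, c)` is symplectic, hence so is `ρ ((t, c), r)` for all `r`. Use [Bij]. -/
def St_Sympl : Prop :=
  ∀ {n N : ℕ} (b : Module.Basis (Fin N) ℝ (Phase n)) (j : ℕ) (T : Type) [TopologicalSpace T]
    [CompactSpace T] (T0 : Set T), j < N →
    (∀ (R : ℝ) (Ψ : T → Phase n → Phase n), ALev b j R Ψ → (∀ t ∈ T0, ∀ x, Ψ t x = x) →
      ∃ Φ : T → Equiv.Perm (Phase n), Lev b j R Φ ∧ (∀ t ∈ T0, Φ t = 1) ∧
        AH b j T0 Ψ (fun t x => Φ t x)) ∧
    ∀ (R : ℝ) (g0 g1 : T → Equiv.Perm (Phase n)), Lev b j R g0 → Lev b j R g1 →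
      AH b j T0 (fun t x => g0 t x) (fun t x => g1 t x) → LH b j T0 g0 g1

/-- [TameB] Uniform bounds for tame families: the displacement and the derivative are bounded, and
the derivative is uniformly continuous in the parameter `a`. Proof: `InvOutside.bounded`,
`InvOutside.reduce` (the derivative is invariant outside the slabs `|ξ_i| ≤ R + 1`, or reduce to the
compact box and use uniform continuity there: compactness of `T × box × I`). -/
def St_TameB : Prop :=
  ∀ {n N : ℕ} (b : Module.Basis (Fin N) ℝ (Phase n)) (T : Type) [TopologicalSpace T]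
    [CompactSpace T] (R : ℝ) (V : T × I → Phase n → Phase n), Tame b R V →
    (∃ C : ℝ, ∀ p x, ‖V p x - x‖ ≤ C) ∧ (∃ C : ℝ, ∀ p x, ‖fderiv ℝ (V p) x‖ ≤ C) ∧
    ∀ η > 0, ∃ d > 0, ∀ t (a a' : I) x, |(a : ℝ) - a'| ≤ d →
      ‖fderiv ℝ (V (t, a)) x - fderiv ℝ (V (t, a')) x‖ ≤ η

/-- [Grid] For a fine grid and slowly varying parameter, the maps
`x ↦ grid M (V (t, ·)) (ε (ξ_j x + L)) x` are admissible, uniformly in `t`, `L`, `x`.
Proof: with `a = ε (ξ_j x + L)` the derivative is the sum of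
`D W_0 x + ∑ S (M a - m) (D W_{(m+1)/M} x - D W_{m/M} x)`, which is at distance `≤ η` from the
symplectic matrix `D W_{k/M} x`, `k` the integral part of `M a` (clamped to `0, …, M`), and of
`ε M ∑ S' (M a - m) ξ_j ⊗ (W_{(m+1)/M} x - W_{m/M} x)`, which is `O (ε)` with a constant depending on
`M`, the bound of the displacement and the bound of `S'` (`S = Real.smoothTransition` is smooth and
constant outside `[0, 1]`). Use [TameB] and `Helper17.NearL.admissible` (`Helper17.AdmComp`):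
`|ω((A + D) v, (A + D) w) - ω(v, w)| ≤ (2 C ‖D‖ + ‖D‖ ^ 2) ‖v‖ ‖w‖` for `A` symplectic, `‖A‖ ≤ C`. -/
def St_Grid : Prop :=
  ∀ {n N : ℕ} (b : Module.Basis (Fin N) ℝ (Phase n)) (j : Fin N) (T : Type) [TopologicalSpace T]
    [CompactSpace T] (R : ℝ) (V : T × I → Phase n → Phase n), Tame b R V →
    ∃ M0 : ℕ, ∀ M ≥ M0, ∃ ε0 > 0, ∀ ε : ℝ, 0 < ε → ε ≤ ε0 → ∀ t (L : ℝ) x,
      Admissible (fderiv ℝ (fun x => grid M (fun a => V (t, a)) (ε * (b.repr x j + L)) x) x)

/-- [Trunc] Existence of the truncated loops. Proof: with `c = TOR.sig δ` put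
`trc F x = x + c (ξ_j x) • (F x - x)` and `V (t, a) x = trc (P t) (trc (P t)⁻¹ x - a b_j) + a b_j`.
Since `P t x = x` for `|ξ_j x| ≤ δ` (`Per1.margin`, `Per1.eq` and periodicity), `trc (P t)` is `P t`
on `ξ_j ≤ 0` and the identity on `ξ_j ≥ 0`; `P t` preserves the strip `0 ≤ ξ_j ≤ 1` and its
translates, hence `{ξ_j ≤ 0}`. Smoothness: `CF.comp` etc. Symplectic: locally `trc F` is `F` or the
identity. -/
def St_Trunc : Prop :=
  ∀ {n N : ℕ} (b : Module.Basis (Fin N) ℝ (Phase n)) (j : Fin N) (T : Type) [TopologicalSpace T]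
    (T0 : Set T) (δ R : ℝ) (g P : T → Equiv.Perm (Phase n)), 0 < δ → δ ≤ 1 / 2 →
    Per1 b j δ R T0 g P →
    ∃ (R' : ℝ) (V : T × I → Phase n → Phase n), TrFam b j R' T0 g P V

/-- [DL] Delooping: if the loops `a ↦ cm (a b_j) (P0 t)` and `a ↦ cm (a b_j) (P1 t)` are homotopic
then `g0` and `g1` are homotopic. -/
def St_DL : Prop :=
  ∀ {n N : ℕ} (b : Module.Basis (Fin N) ℝ (Phase n)) (j : Fin N) (T : Type) [TopologicalSpace T]
    [CompactSpace T] (T0 : Set T) (δ R : ℝ) (g0 g1 P0 P1 : T → Equiv.Perm (Phase n)), 0 < δ →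
    δ ≤ 1 / 2 → Per1 b j δ R T0 g0 P0 → Per1 b j δ R T0 g1 P1 →
    LH b ((j : ℕ) + 1) (relI T0) (fun p => cm ((p.2 : ℝ) • b j) (P0 p.1))
      (fun p => cm ((p.2 : ℝ) • b j) (P1 p.1)) →
    LH b (j : ℕ) T0 g0 g1

/-- [DilRel] `TOR.St_Dil` relative to a subset where the maps are the identity. Proof: as
`TOR.thm_Dil`; the conjugate of the identity by a dilation is the identity. -/
def St_DilRel : Prop :=
  ∀ {n : ℕ} (K : Compacts (Phase n)), Convex ℝ (K : Set (Phase n)) →
    (interior (K : Set (Phase n))).Nonempty →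
    ∀ (T : Type) [TopologicalSpace T] [CompactSpace T] (T0 : Set T),
      (∀ f : C(T, SympCt n), (∀ t ∈ T0, f t = 1) → ∃ g : C(T, SympSupp n K),
        (∀ t ∈ T0, (g t).1 = 1) ∧ f.HomotopicRel
          (ContinuousMap.comp ⟨SympSupp.incl K, SympSupp.continuous_incl K⟩ g) T0) ∧
      ∀ f g : C(T, SympSupp n K), (∀ t ∈ T0, (f t).1 = 1) → (∀ t ∈ T0, (g t).1 = 1) →
        (ContinuousMap.comp ⟨SympSupp.incl K, SympSupp.continuous_incl K⟩ f).HomotopicRel
          (ContinuousMap.comp ⟨SympSupp.incl K, SympSupp.continuous_incl K⟩ g) T0 →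
        f.HomotopicRel g T0

end Pool.Agent.TOL
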