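import Mathlib
import Pool.Agent.TOL.Stmts

set_option maxSynthPendingDepth 3

open scoped ContDiff Distributions Topology unitInterval
open Set Function TopologicalSpace

namespace Pool.Agent.TOL

open Pool.Agent.Helper17 Pool.Agent.TOR

section lev

variable {n N : ℕ} {b : Module.Basis (Fin N) ℝ (Phase n)}

/-! ### Operations on families at level `j` -/

lemma slab_mono {j : ℕ} {R R' : ℝ} (h : R ≤ R') : slab b j R ⊆ slab b j R' :=
  fun _ hx i hi => (hx i hi).trans h

lemma _root_.Pool.Agent.TOR.Lev.mono {j : ℕ} {R R' : ℝ} {T : Type} [TopologicalSpace T]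
    {F : T → Equiv.Perm (Phase n)} (h : Lev b j R F) (hR : R ≤ R') : Lev b j R' F :=
  ⟨h.cf, h.cf', h.symp, h.per, fun t x hx => h.supp t x fun hx' => hx (slab_mono hR hx')⟩

lemma _root_.Pool.Agent.TOR.Lev.reparam {j : ℕ} {R : ℝ} {T T' : Type} [TopologicalSpace T]
    [TopologicalSpace T'] {F : T → Equiv.Perm (Phase n)} (h : Lev b j R F) {g : T' → T}
    (hg : Continuous g) : Lev b j R (fun t => F (g t)) :=
  ⟨h.cf.base hg, h.cf'.base hg, fun t => h.symp (g t), fun t => h.per (g t),
    fun t => h.supp (g t)⟩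

lemma symm_add {ψ : Equiv.Perm (Phase n)} {v : Phase n}
    (h : ∀ x, ψ (x + v) = ψ x + v) (x : Phase n) : ψ.symm (x + v) = ψ.symm x + v := by
  rw [Equiv.symm_apply_eq, h, Equiv.apply_symm_apply]

lemma symp_comp {φ ψ : Phase n → Phase n} (hφ : Differentiable ℝ φ) (hψ : Differentiable ℝ ψ)
    (h1 : ∀ p u v, omegaStd (fderiv ℝ φ p u) (fderiv ℝ φ p v) = omegaStd u v)
    (h2 : ∀ p u v, omegaStd (fderiv ℝ ψ p u) (fderiv ℝ ψ p v) = omegaStd u v) (p u v : Phase n) :
    omegaStd (fderiv ℝ (fun x => φ (ψ x)) p u) (fderiv ℝ (fun x => φ (ψ x)) p v) =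
      omegaStd u v := by
  have h : fderiv ℝ (fun x => φ (ψ x)) p = (fderiv ℝ φ (ψ p)).comp (fderiv ℝ ψ p) :=
    fderiv_comp p (hφ _) (hψ _)
  rw [h]
  simp only [ContinuousLinearMap.comp_apply]
  rw [h1, h2]

lemma symp_symm {φ : Equiv.Perm (Phase n)} (hφ : Differentiable ℝ φ)
    (hφs : Differentiable ℝ φ.symm)
    (h1 : ∀ p u v, omegaStd (fderiv ℝ φ p u) (fderiv ℝ φ p v) = omegaStd u v) (p u v : Phase n) :
    omegaStd (fderiv ℝ φ.symm p u) (fderiv ℝ φ.symm p v) = omegaStd u v := by
  have h : (fderiv ℝ φ (φ.symm p)).comp (fderiv ℝ φ.symm p) = ContinuousLinearMap.id ℝ _ := by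
    rw [← fderiv_comp p (hφ _) (hφs _)]
    have : (φ ∘ φ.symm : Phase n → Phase n) = id := by ext1 x; simp
    rw [this, fderiv_id]
  have hu : fderiv ℝ φ (φ.symm p) (fderiv ℝ φ.symm p u) = u := by
    simpa using congrArg (fun L => L u) h
  have hv : fderiv ℝ φ (φ.symm p) (fderiv ℝ φ.symm p v) = v := by
    simpa using congrArg (fun L => L v) h
  rw [← h1 (φ.symm p), hu, hv]

lemma _root_.Pool.Agent.TOR.Lev.mul {j : ℕ} {R : ℝ} {T : Type} [TopologicalSpace T]
    {F G : T → Equiv.Perm (Phase n)} (hF : Lev b j R F) (hG : Lev b j R G) :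
    Lev b j R (fun t => F t * G t) := by
  refine ⟨hF.cf.comp hG.cf, hG.cf'.comp hF.cf', ?_, ?_, ?_⟩
  · intro t p u v
    exact symp_comp (hF.cf.differentiable t) (hG.cf.differentiable t) (hF.symp t) (hG.symp t) p u v
  · intro t i hi x
    simp only [Equiv.Perm.coe_mul, comp_apply]
    rw [hG.per t i hi, hF.per t i hi]
  · intro t x hx
    simp only [Equiv.Perm.coe_mul, comp_apply]
    rw [hG.supp t x hx, hF.supp t x hx]

lemma _root_.Pool.Agent.TOR.Lev.inv {j : ℕ} {R : ℝ} {T : Type} [TopologicalSpace T]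
    {F : T → Equiv.Perm (Phase n)} (hF : Lev b j R F) : Lev b j R (fun t => (F t)⁻¹) := by
  refine ⟨hF.cf', hF.cf, ?_, ?_, ?_⟩
  · intro t p u v
    exact symp_symm (hF.cf.differentiable t) (hF.cf'.differentiable t) (hF.symp t) p u v
  · intro t i hi x
    exact symm_add (hF.per t i hi) x
  · intro t x hx
    change (F t).symm x = x
    rw [Equiv.symm_apply_eq]
    exact (hF.supp t x hx).symm

lemma repr_smul_basis (a : ℝ) (i k : Fin N) :
    b.repr (a • b i) k = if i = k then a else 0 := by
  rw [map_smul, Module.Basis.repr_self, Finsupp.smul_apply, Finsupp.single_apply, smul_eq_mul]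
  split_ifs <;> simp

/-- Commutators with translations in the periodic directions. -/
lemma _root_.Pool.Agent.TOR.Lev.cm {j : ℕ} {R : ℝ} {T : Type} [TopologicalSpace T]
    {F : T → Equiv.Perm (Phase n)} (hF : Lev b j R F) {v : T → Phase n} (hv : Continuous v)
    (hvj : ∀ t, ∀ i : Fin N, j ≤ (i : ℕ) → b.repr (v t) i = 0) :
    Lev b j R (fun t => TOL.cm (v t) (F t)) := by
  have hd1 : ∀ t, Differentiable ℝ (fun x : Phase n => x + v t) := fun t =>
    differentiable_id.add (differentiable_const _)
  have hd2 : ∀ t, Differentiable ℝ (fun x : Phase n => x - v t) := fun t =>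
    differentiable_id.sub (differentiable_const _)
  have hs1 : ∀ t (p a c : Phase n), omegaStd (fderiv ℝ (fun x : Phase n => x + v t) p a)
      (fderiv ℝ (fun x : Phase n => x + v t) p c) = omegaStd a c := by
    intro t p a c
    have : fderiv ℝ (fun x : Phase n => x + v t) p = ContinuousLinearMap.id ℝ _ :=
      ((hasFDerivAt_id p).add_const (v t)).fderiv
    rw [this]; simp
  have hs2 : ∀ t (p a c : Phase n), omegaStd (fderiv ℝ (fun x : Phase n => x - v t) p a)
      (fderiv ℝ (fun x : Phase n => x - v t) p c) = omegaStd a c := by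
    intro t p a c
    have : fderiv ℝ (fun x : Phase n => x - v t) p = ContinuousLinearMap.id ℝ _ :=
      ((hasFDerivAt_id p).sub_const (v t)).fderiv
    rw [this]; simp
  have hinvF := hF.inv
  have hslab1 : ∀ t, ∀ x ∉ slab b j R, x + v t ∉ slab b j R := by
    intro t x hx h
    apply hx
    intro i hi
    have := h i hi
    rwa [map_add, Finsupp.add_apply, hvj t i hi, add_zero] at this
  have hslab2 : ∀ t, ∀ x ∉ slab b j R, x - v t ∉ slab b j R := by
    intro t x hx h
    apply hx
    intro i hi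
    have := h i hi
    rwa [map_sub, Finsupp.sub_apply, hvj t i hi, sub_zero] at this
  have hsuppi : ∀ t, ∀ x ∉ slab b j R, (F t).symm x = x := hinvF.supp
  have hperi : ∀ t, ∀ i : Fin N, (i : ℕ) < j → ∀ x, (F t).symm (x + b i) = (F t).symm x + b i :=
    hinvF.per
  have hsi : ∀ t (p a c : Phase n), omegaStd (fderiv ℝ (F t).symm p a)
      (fderiv ℝ (F t).symm p c) = omegaStd a c := hinvF.symp
  refine ⟨?_, ?_, ?_, ?_, ?_⟩
  · have h1 : CF (fun t x => F t ((F t).symm x - v t) + v t) :=
      (hF.cf.comp (hF.cf'.sub (CF.param hv))).add (CF.param hv)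
    intro k
    have h2 := h1 k
    have e : (fun t x => TOL.cm (v t) (F t) x) = fun t x => F t ((F t).symm x - v t) + v t := by
      funext t x
      exact cm_apply _ _ _
    rw [e]
    exact h2
  · -- the inverse is `x ↦ F (F⁻¹ (x - v) + v)`
    have e : (fun t x => (TOL.cm (v t) (F t)).symm x) =
        fun t x => F t ((F t).symm (x - v t) + v t) := by
      funext t x
      rw [Equiv.symm_apply_eq, cm_apply, Equiv.symm_apply_apply, add_sub_cancel_right,
        Equiv.apply_symm_apply, sub_add_cancel]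
    rw [e]
    exact hF.cf.comp ((hF.cf'.comp ((CF.const contDiff_id).sub (CF.param hv))).add (CF.param hv))
  · intro t p a c
    have e : (TOL.cm (v t) (F t) : Phase n → Phase n) =
        fun x => (fun y => y + v t) (F t ((fun y => y - v t) ((F t).symm x))) := by
      funext x
      exact cm_apply _ _ _
    rw [e]
    refine symp_comp (φ := fun y => y + v t) (hd1 t)
      ((hF.cf.differentiable t).comp ((hd2 t).comp (hF.cf'.differentiable t))) (hs1 t) ?_ p a c
    intro p a c
    refine symp_comp (φ := F t) (ψ := fun x => (F t).symm x - v t) (hF.cf.differentiable t)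
      ((hd2 t).comp (hF.cf'.differentiable t)) (hF.symp t) ?_ p a c
    intro p a c
    exact symp_comp (φ := fun y => y - v t) (ψ := (F t).symm) (hd2 t) (hF.cf'.differentiable t)
      (hs2 t) (hsi t) p a c
  · intro t i hi x
    rw [cm_apply, cm_apply, hperi t i hi]
    have h1 : (F t).symm x + b i - v t = ((F t).symm x - v t) + b i := by abel
    rw [h1, hF.per t i hi]
    abel
  · intro t x hx
    rw [cm_apply, hsuppi t x hx, hF.supp t _ (hslab2 t x hx), sub_add_cancel]

lemma cm_zero (g : Equiv.Perm (Phase n)) : cm 0 g = 1 := by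
  ext1 x
  rw [cm_apply, sub_zero, Equiv.apply_symm_apply, add_zero]
  rfl

lemma cm_one (v : Phase n) : cm v 1 = 1 := by
  ext1 x
  rw [cm_apply]
  change x - v + v = x
  abel

/-- The commutator is trivial if the translation commutes with `g`. -/
lemma cm_eq_one {v : Phase n} {g : Equiv.Perm (Phase n)} (h : ∀ x, g (x + v) = g x + v) :
    cm v g = 1 := by
  ext1 x
  rw [cm_apply, ← h, sub_add_cancel, Equiv.apply_symm_apply]
  rfl

/-! ### The grid smoothing -/

lemma grid_zero (M : ℕ) (W : I → Phase n → Phase n) {a : ℝ} (ha : a ≤ 0) (x : Phase n) :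
    grid M W a x = W 0 x := by
  unfold grid
  rw [Finset.sum_eq_zero, add_zero]
  intro m _
  rw [Real.smoothTransition.zero_of_nonpos, zero_smul]
  have h1 : (0 : ℝ) ≤ M := Nat.cast_nonneg M
  have h2 : (0 : ℝ) ≤ m := Nat.cast_nonneg m
  nlinarith

lemma grid_one {M : ℕ} (hM : 0 < M) (W : I → Phase n → Phase n) {a : ℝ} (ha : 1 ≤ a)
    (x : Phase n) : grid M W a x = W 1 x := by
  unfold grid
  have hM' : (0 : ℝ) < M := Nat.cast_pos.2 hM
  obtain ⟨f, hf⟩ : ∃ f : ℕ → Phase n, ∀ m : ℕ, f m = W (pr (m / M)) x := ⟨_, fun _ => rfl⟩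
  have h1 : ∀ m ∈ Finset.range M, Real.smoothTransition (M * a - m) •
      (W (pr ((m + 1) / M)) x - W (pr (m / M)) x) = f (m + 1) - f m := by
    intro m hm
    have h2 : (m : ℝ) + 1 ≤ M := by exact_mod_cast Finset.mem_range.1 hm
    rw [Real.smoothTransition.one_of_one_le, one_smul, hf, hf]
    · push_cast
      rfl
    · nlinarith
  rw [Finset.sum_congr rfl h1, Finset.sum_range_sub, hf, hf]
  have h3 : pr ((M : ℝ) / M) = 1 := by
    rw [div_self hM'.ne']
    exact projIcc_right zero_le_one
  have h4 : pr (((0 : ℕ) : ℝ) / M) = 0 := by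
    rw [Nat.cast_zero, zero_div]
    exact projIcc_left zero_le_one
  rw [h3, h4]
  abel

lemma grid_congr (M : ℕ) {W W' : I → Phase n → Phase n} {x : Phase n}
    (h : ∀ a, W a x = W' a x) (a : ℝ) : grid M W a x = grid M W' a x := by
  unfold grid
  rw [h 0]
  congr 1
  apply Finset.sum_congr rfl
  intro m _
  rw [h, h]

lemma grid_const (M : ℕ) {W : I → Phase n → Phase n} {x y : Phase n}
    (h : ∀ a, W a x = y) (a : ℝ) : grid M W a x = y := by
  unfold grid
  rw [h 0, Finset.sum_eq_zero, add_zero]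
  intro m _
  rw [h, h, sub_self, smul_zero]

lemma grid_per (M : ℕ) {W : I → Phase n → Phase n} {x v : Phase n}
    (h : ∀ a, W a (x + v) = W a x + v) (a : ℝ) : grid M W a (x + v) = grid M W a x + v := by
  unfold grid
  rw [h 0]
  have h1 : ∀ m ∈ Finset.range M, Real.smoothTransition (M * a - m) •
      (W (pr ((m + 1) / M)) (x + v) - W (pr (m / M)) (x + v)) =
      Real.smoothTransition (M * a - m) • (W (pr ((m + 1) / M)) x - W (pr (m / M)) x) := by
    intro m _
    rw [h, h, add_sub_add_right_eq_sub]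
  rw [Finset.sum_congr rfl h1]
  abel

lemma CF_sum {T : Type} [TopologicalSpace T] {ι : Type} (s : Finset ι)
    {F : ι → T → Phase n → Phase n} (h : ∀ i, CF (F i)) :
    CF (fun t x => ∑ i ∈ s, F i t x) := by
  classical
  induction s using Finset.induction_on with
  | empty =>
    simp only [Finset.sum_empty]
    exact CF.const contDiff_const
  | insert i s hi ih =>
    simp only [Finset.sum_insert hi]
    exact (h i).add ih

lemma CF_coord {T : Type} [TopologicalSpace T] (b : Module.Basis (Fin N) ℝ (Phase n))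
    (j : Fin N) : CF (fun (_ : T) (x : Phase n) => b.repr x j) := by
  have h1 : ContDiff ℝ ∞ (fun x : Phase n => b.repr x j) :=
    (LinearMap.toContinuousLinearMap (b.coord j)).contDiff
  exact CF.const h1

/-- The grid smoothing gives smooth families. -/
lemma CF_grid {T T' : Type} [TopologicalSpace T] [TopologicalSpace T'] (j : Fin N) (M : ℕ) (ε : ℝ)
    {V : T × I → Phase n → Phase n} (hV : CF V) {f : T' → T} (hf : Continuous f)
    {L : T' → ℝ} (hL : Continuous L) :
    CF (fun t x => grid M (fun a => V (f t, a)) (ε * (b.repr x j + L t)) x) := by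
  have hc : ∀ a : I, CF (fun t x => V (f t, a) x) := fun a =>
    hV.base (hf.prodMk continuous_const)
  unfold grid
  refine (hc 0).add (CF_sum _ fun m => ?_)
  refine CF.smul ?_ ((hc _).sub (hc _))
  have h1 : CF (fun (t : T') (x : Phase n) => (M : ℝ) * (ε * (b.repr x j + L t)) - m) := by
    have h2 : CF (fun (t : T') (x : Phase n) => b.repr x j + L t) :=
      (CF_coord b j).add (CF.param hL)
    exact h2.comp_smooth (g := fun y : ℝ => (M : ℝ) * (ε * y) - m) fun _ _ =>
      ((contDiff_const.mul (contDiff_const.mul contDiff_id)).sub contDiff_const).contDiffAt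
  exact h1.comp_smooth (g := Real.smoothTransition) fun _ _ =>
    Real.smoothTransition.contDiff.contDiffAt

end lev

end Pool.Agent.TOL
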