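import Mathlib
import Pool.Agent.TOL.Basic

set_option maxSynthPendingDepth 3

open scoped ContDiff Distributions Topology unitInterval
open Set Function TopologicalSpace

namespace Pool.Agent.TOL

open Pool.Agent.Helper17 Pool.Agent.TOR

section dl

variable {n N : ℕ} {b : Module.Basis (Fin N) ℝ (Phase n)}

lemma repr_add_ne {i j : Fin N} (h : i ≠ j) (x : Phase n) :
    b.repr (x + b i) j = b.repr x j := by
  rw [map_add, Module.Basis.repr_self, Finsupp.add_apply, Finsupp.single_apply, if_neg h, add_zero]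

lemma coord_basis_self (i : Fin N) : b.coord i (b i) = 1 := by
  rw [Module.Basis.coord_apply, Module.Basis.repr_self, Finsupp.single_eq_same]

lemma not_mem_slab {j : ℕ} {R : ℝ} {x : Phase n} (h : x ∉ slab b j R) :
    ∃ i : Fin N, j ≤ (i : ℕ) ∧ R < |b.repr x i| := by
  by_contra hcon
  push Not at hcon
  exact h hcon

lemma not_mem_slab_of {j : ℕ} {R : ℝ} {x : Phase n} {i : Fin N} (hi : j ≤ (i : ℕ))
    (h : R < |b.repr x i|) : x ∉ slab b j R := fun hx => absurd (hx i hi) (not_le.2 h)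

/-- Families at level `j` are tame. -/
lemma _root_.Pool.Agent.TOR.Lev.tame {j : ℕ} {R : ℝ} {T : Type} [TopologicalSpace T]
    {F : T → Equiv.Perm (Phase n)} (h : Lev b j R F) :
    Tame b (|R| + 1) (fun t x => F t x) := by
  have hR := le_abs_self R
  have hR0 := abs_nonneg R
  refine ⟨h.cf, h.symp, ?_, ?_⟩
  · intro i t x hx
    beta_reduce
    rcases lt_or_ge (i : ℕ) j with hi | hi
    · rw [h.per t i hi]; abel
    · have hx' : |R| + 1 ≤ b.repr x i := hx
      have h1 : x ∉ slab b j R := not_mem_slab_of hi (by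
        rw [abs_of_nonneg (by linarith)]; linarith)
      have h2 : x + b i ∉ slab b j R := not_mem_slab_of hi (by
        rw [map_add, Module.Basis.repr_self, Finsupp.add_apply, Finsupp.single_eq_same,
          abs_of_nonneg (by linarith)]
        linarith)
      rw [h.supp t _ h1, h.supp t _ h2, sub_self, sub_self]
  · intro i t x hx
    beta_reduce
    rcases lt_or_ge (i : ℕ) j with hi | hi
    · have h1 := h.per t i hi (x - b i)
      rw [sub_add_cancel] at h1
      rw [h1]; abel
    · have hx' : b.repr x i ≤ -(|R| + 1) := hx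
      have h1 : x ∉ slab b j R := not_mem_slab_of hi (by
        rw [abs_of_nonpos (by linarith)]; linarith)
      have h2 : x - b i ∉ slab b j R := not_mem_slab_of hi (by
        rw [map_sub, Module.Basis.repr_self, Finsupp.sub_apply, Finsupp.single_eq_same,
          abs_of_nonpos (by linarith)]
        linarith)
      rw [h.supp t _ h1, h.supp t _ h2, sub_self, sub_self]

lemma Tame.reparam {R : ℝ} {T T' : Type} [TopologicalSpace T] [TopologicalSpace T']
    {V : T → Phase n → Phase n} (h : Tame b R V) {f : T' → T} (hf : Continuous f) :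
    Tame b R (fun t x => V (f t) x) :=
  ⟨h.cf.base hf, fun t => h.symp (f t), fun i t => h.inv.1 i (f t), fun i t => h.inv.2 i (f t)⟩

lemma ALev.reparam {j : ℕ} {R : ℝ} {T T' : Type} [TopologicalSpace T] [TopologicalSpace T']
    {F : T → Phase n → Phase n} (h : ALev b j R F) {f : T' → T} (hf : Continuous f) :
    ALev b j R (fun t x => F (f t) x) :=
  ⟨h.cf.base hf, fun t => h.adm (f t), fun t => h.per (f t), fun t => h.supp (f t)⟩

lemma Per1.g_nonpos {j : Fin N} {δ R : ℝ} {T : Type} [TopologicalSpace T] {T0 : Set T}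
    {g P : T → Equiv.Perm (Phase n)} (h : Per1 b j δ R T0 g P) (hδ : 0 < δ) {t : T} {x : Phase n}
    (hx : b.repr x j ≤ 0) : g t x = x := by
  by_contra hne
  have := (h.margin t x hne).1
  linarith

lemma Per1.g_nonneg {j : Fin N} {δ R : ℝ} {T : Type} [TopologicalSpace T] {T0 : Set T}
    {g P : T → Equiv.Perm (Phase n)} (h : Per1 b j δ R T0 g P) (hδ : 0 < δ) {t : T} {x : Phase n}
    (hx : 0 ≤ b.repr x j) : 0 ≤ b.repr (g t x) j := by
  by_cases hne : g t x = x
  · rw [hne]; exact hx
  · have h1 : g t (g t x) ≠ g t x := fun h => hne ((g t).injective h)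
    have := (h.margin t _ h1).1
    linarith

/-- The truncated loops give a homotopy between the identity and `A ∘ g`. -/
lemma ah_unit {j : Fin N} {δ R R' : ℝ} {T : Type} [TopologicalSpace T] [CompactSpace T]
    {T0 : Set T} {g P : T → Equiv.Perm (Phase n)} (hδ : 0 < δ) (hP : Per1 b j δ R T0 g P)
    {V : T × I → Phase n → Phase n} (hV : TrFam b j R' T0 g P V) {M : ℕ} (hM : 0 < M) {ε : ℝ}
    (hε : 0 < ε) (hadm : ∀ t (L : ℝ) x, Admissible (fderiv ℝ (fun x =>
      grid M (fun a => V (t, a)) (ε * (b.repr x j + L)) x) x)) :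
    AH b (j : ℕ) T0 (fun _ x => x) (fun t x => grid M (fun a x => cm ((a : ℝ) • b j) (P t) x)
      (ε * (b.repr (g t x) j + ε⁻¹)) (g t x)) := by
  have hεi : 0 < ε⁻¹ := inv_pos.2 hε
  set Ls : I → ℝ := fun s => -1 + (s : ℝ) * (ε⁻¹ + 1) with hLs
  have hLsc : Continuous Ls :=
    continuous_const.add (continuous_subtype_val.mul continuous_const)
  have hLs1 : ∀ s, Ls s ≤ ε⁻¹ := by
    intro s
    have h0 := s.2.1
    have h1 := s.2.2
    simp only [hLs]
    nlinarith
  set R3 : ℝ := max |R'| (max ε⁻¹ 1) with hR3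
  refine ⟨R3, fun p x => grid M (fun a => V (p.1, a)) (ε * (b.repr x j + Ls p.2)) x,
    ⟨?_, ?_, ?_, ?_⟩, ?_, ?_, ?_⟩
  · exact CF_grid j M ε hV.tame.cf continuous_fst (hLsc.comp continuous_snd)
  · intro p x
    exact hadm p.1 (Ls p.2) x
  · intro p i hi x
    have hij : i ≠ j := by
      intro h; rw [h] at hi; exact lt_irrefl _ hi
    have h1 := grid_per M (W := fun a => V (p.1, a)) (x := x) (v := b i)
      (fun a => hV.per (p.1, a) i hi x) (ε * (b.repr x j + Ls p.2))
    simp only [repr_add_ne hij]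
    exact h1
  · intro p x hx
    obtain ⟨i, hi, hxi⟩ := not_mem_slab hx
    have e1 : |R'| ≤ R3 := le_max_left _ _
    have e2 : ε⁻¹ ≤ R3 := (le_max_left _ _).trans (le_max_right _ _)
    have e3 : (1 : ℝ) ≤ R3 := (le_max_right _ _).trans (le_max_right _ _)
    rcases Nat.eq_or_lt_of_le hi with h | h
    · have hij : i = j := Fin.ext h.symm
      subst hij
      rcases le_or_gt 0 (b.repr x i) with h0 | h0
      · rw [abs_of_nonneg h0] at hxi
        exact grid_const M (fun a => hV.right p.1 a x (by linarith)) _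
      · rw [abs_of_neg h0] at hxi
        have h2 := hLs1 p.2
        have h3 : ε * (b.repr x i + Ls p.2) ≤ 0 :=
          mul_nonpos_of_nonneg_of_nonpos hε.le (by linarith)
        beta_reduce
        rw [grid_zero M _ h3]
        exact hV.zero p.1 x
    · have h2 := le_abs_self R'
      exact grid_const M (fun a => hV.supp (p.1, a) i h x (by linarith)) _
  · -- the start
    intro t x
    have hL : Ls 0 = -1 := by simp [hLs]
    beta_reduce
    simp only [hL]
    rcases le_or_gt 1 (b.repr x j) with h | h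
    · exact grid_const M (fun a => hV.right t a x h) _
    · have h3 : ε * (b.repr x j + -1) ≤ 0 :=
        mul_nonpos_of_nonneg_of_nonpos hε.le (by linarith)
      rw [grid_zero M _ h3]
      exact hV.zero t x
  · -- the end
    intro t x
    have hL : Ls 1 = ε⁻¹ := by simp [hLs]
    beta_reduce
    simp only [hL]
    rcases le_or_gt (b.repr x j) 0 with h | h
    · rw [hP.g_nonpos hδ h]
      exact grid_congr M (fun a => hV.left t a x h) _
    · have h3 : ∀ y : ℝ, 0 ≤ y → 1 ≤ ε * (y + ε⁻¹) := by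
        intro y hy
        rw [mul_add, mul_inv_cancel₀ hε.ne']
        have := mul_nonneg hε.le hy
        linarith
      rw [grid_one hM _ (h3 _ h.le), grid_one hM _ (h3 _ (hP.g_nonneg hδ h.le)), hV.one]
      have h4 : cm (((1 : I) : ℝ) • b j) (P t) = 1 := by
        rw [Icc.coe_one, one_smul]
        exact cm_eq_one fun x => hP.levP.per t j (Nat.lt_succ_self _) x
      rw [h4]
      rfl
  · intro t ht s x
    exact grid_const M (fun a => hV.rel t ht a x) _

theorem thm_DL (hA : St_AHc) (hS : St_Sympl) (hG : St_Grid) (hT : St_Trunc) : St_DL := by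
  intro n N b j T _ _ T0 δ R g0 g1 P0 P1 hδ hδ' hP0 hP1 hH
  obtain ⟨RH, F, hF, hF0, hF1, hFr⟩ := hH
  -- the homotopy of loops as a tame family
  set V : (T × I) × I → Phase n → Phase n := fun q x => F ((q.1.1, q.2), q.1.2) x with hV
  have hVc : Continuous (fun q : (T × I) × I => (((q.1.1, q.2), q.1.2) : (T × I) × I)) :=
    ((continuous_fst.comp continuous_fst).prodMk continuous_snd).prodMk
      (continuous_snd.comp continuous_fst)
  have hVT : Tame b (|RH| + 1) V := hF.tame.reparam hVc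
  obtain ⟨R0', V0, hV0⟩ := hT b j T T0 δ R g0 P0 hδ hδ' hP0
  obtain ⟨R1', V1, hV1⟩ := hT b j T T0 δ R g1 P1 hδ hδ' hP1
  obtain ⟨MH, hMH⟩ := hG b j (T × I) _ V hVT
  obtain ⟨M0, hM0⟩ := hG b j T _ V0 hV0.tame
  obtain ⟨M1, hM1⟩ := hG b j T _ V1 hV1.tame
  set M : ℕ := max (max MH M0) (max M1 1) with hM
  have hMpos : 0 < M := lt_of_lt_of_le one_pos ((le_max_right _ _).trans (le_max_right _ _))
  obtain ⟨εH, hεH, hH'⟩ := hMH M ((le_max_left _ _).trans (le_max_left _ _))
  obtain ⟨ε0, hε0, h0'⟩ := hM0 M ((le_max_right _ _).trans (le_max_left _ _))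
  obtain ⟨ε1, hε1, h1'⟩ := hM1 M ((le_max_left _ _).trans (le_max_right _ _))
  set ε : ℝ := min (min εH ε0) ε1 with hε
  have hεpos : 0 < ε := lt_min (lt_min hεH hε0) hε1
  have hεi : 0 < ε⁻¹ := inv_pos.2 hεpos
  have hadmH := hH' ε hεpos ((min_le_left _ _).trans (min_le_left _ _))
  have hadm0 := h0' ε hεpos ((min_le_left _ _).trans (min_le_right _ _))
  have hadm1 := h1' ε hεpos (min_le_right _ _)
  -- the two glued maps
  set A : (T → Equiv.Perm (Phase n)) → T → Phase n → Phase n := fun P t x =>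
    grid M (fun a x => cm ((a : ℝ) • b j) (P t) x) (ε * (b.repr x j + ε⁻¹)) x with hAdef
  set R2 : ℝ := max |RH| ε⁻¹ with hR2
  set W : T × I → Phase n → Phase n := fun p x =>
    grid M (fun a => V (p, a)) (ε * (b.repr x j + ε⁻¹)) x with hW
  have hVzero : ∀ p x, V (p, 0) x = x := by
    intro p x
    have : F ((p.1, 0), p.2) = 1 := hFr _ (Or.inr (Or.inl rfl)) _
    simp only [hV, this]
    rfl
  have hVone : ∀ p x, V (p, 1) x = x := by
    intro p x
    have : F ((p.1, 1), p.2) = 1 := hFr _ (Or.inr (Or.inr rfl)) _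
    simp only [hV, this]
    rfl
  have hVrel : ∀ p : T × I, p.1 ∈ T0 → ∀ a x, V (p, a) x = x := by
    intro p hp a x
    have : F ((p.1, a), p.2) = 1 := hFr (p.1, a) (Or.inl hp) _
    simp only [hV, this]
    rfl
  have hWlev : ALev b (j : ℕ) R2 W := by
    refine ⟨?_, ?_, ?_, ?_⟩
    · exact CF_grid j M ε hVT.cf continuous_id continuous_const
    · intro p x
      exact hadmH p ε⁻¹ x
    · intro p i hi x
      have hij : i ≠ j := by
        intro h; rw [h] at hi; exact lt_irrefl _ hi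
      have h1 := grid_per M (W := fun a => V (p, a)) (x := x) (v := b i)
        (fun a => hF.per _ i (Nat.lt_succ_of_lt hi) x) (ε * (b.repr x j + ε⁻¹))
      simp only [hW, repr_add_ne hij]
      exact h1
    · intro p x hx
      obtain ⟨i, hi, hxi⟩ := not_mem_slab hx
      have e1 : |RH| ≤ R2 := le_max_left _ _
      have e2 : ε⁻¹ ≤ R2 := le_max_right _ _
      rcases Nat.eq_or_lt_of_le hi with h | h
      · have hij : i = j := Fin.ext h.symm
        subst hij
        rcases le_or_gt 0 (b.repr x i) with h0 | h0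
        · have h3 : 1 ≤ ε * (b.repr x i + ε⁻¹) := by
            rw [mul_add, mul_inv_cancel₀ hεpos.ne']
            have := mul_nonneg hεpos.le h0
            linarith
          simp only [hW]
          rw [grid_one hMpos _ h3]
          exact hVone p x
        · rw [abs_of_neg h0] at hxi
          have h3 : ε * (b.repr x i + ε⁻¹) ≤ 0 :=
            mul_nonpos_of_nonneg_of_nonpos hεpos.le (by linarith)
          simp only [hW]
          rw [grid_zero M _ h3]
          exact hVzero p x
      · have h2 := le_abs_self RH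
        have h3 : x ∉ slab b ((j : ℕ) + 1) RH := not_mem_slab_of (i := i) h (by linarith)
        exact grid_const M (fun a => hF.supp _ x h3) _
  have hW0 : ∀ t x, W (t, 0) x = A P0 t x := by
    intro t x
    apply grid_congr M
    intro a
    simp only [hV, hF0]
  have hW1 : ∀ t x, W (t, 1) x = A P1 t x := by
    intro t x
    apply grid_congr M
    intro a
    simp only [hV, hF1]
  have hWrel : ∀ t ∈ T0, ∀ s x, W (t, s) x = x := by
    intro t ht s x
    exact grid_const M (fun a => hVrel (t, s) ht a x) _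
  have hAB : AH b (j : ℕ) T0 (A P0) (A P1) := ⟨R2, W, hWlev, hW0, hW1, hWrel⟩
  have hAlev : ALev b (j : ℕ) R2 (A P0) := by
    have h1 : ALev b (j : ℕ) R2 (fun t x => W (t, 0) x) :=
      hWlev.reparam (continuous_id.prodMk continuous_const)
    have h2 : (fun t x => W (t, 0) x) = A P0 := by
      funext t x
      exact hW0 t x
    rwa [h2] at h1
  have hArel : ∀ t ∈ T0, ∀ x, A P0 t x = x := by
    intro t ht x
    rw [← hW0]
    exact hWrel t ht 0 x
  -- the units
  have hu0 : AH b (j : ℕ) T0 (fun _ x => x) (fun t x => A P0 t (g0 t x)) :=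
    ah_unit hδ hP0 hV0 hMpos hεpos hadm0
  have hu1 : AH b (j : ℕ) T0 (fun _ x => x) (fun t x => A P1 t (g1 t x)) :=
    ah_unit hδ hP1 hV1 hMpos hεpos hadm1
  -- the symplectic replacement
  obtain ⟨Φ, hΦ, hΦ0, hΦA⟩ := (hS b (j : ℕ) T T0 j.2).1 R2 (A P0) hAlev hArel
  have hsymm : ∀ F0 F1 : T → Phase n → Phase n, AH b (j : ℕ) T0 F0 F1 → AH b (j : ℕ) T0 F1 F0 :=
    fun F0 F1 => (hA b (j : ℕ) T T0 F0 F1 F1).1
  have htrans : ∀ F0 F1 F2 : T → Phase n → Phase n, AH b (j : ℕ) T0 F0 F1 →
      AH b (j : ℕ) T0 F1 F2 → AH b (j : ℕ) T0 F0 F2 :=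
    fun F0 F1 F2 => (hA b (j : ℕ) T T0 F0 F1 F2).2.1
  have hcomp : ∀ (F0 F1 : T → Phase n → Phase n) (g : T → Equiv.Perm (Phase n)),
      Lev b (j : ℕ) R g → (∀ t ∈ T0, g t = 1) → AH b (j : ℕ) T0 F0 F1 →
      AH b (j : ℕ) T0 (fun t x => F0 t (g t x)) (fun t x => F1 t (g t x)) :=
    fun F0 F1 g => (hA b (j : ℕ) T T0 F0 F1 F1).2.2 R g
  have c1 : AH b (j : ℕ) T0 (fun t x => Φ t (g0 t x)) (fun t x => A P0 t (g0 t x)) :=
    hcomp _ _ g0 hP0.lev hP0.rel (hsymm _ _ hΦA)
  have c2 := hsymm _ _ hu0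
  have c4 : AH b (j : ℕ) T0 (fun t x => A P1 t (g1 t x)) (fun t x => A P0 t (g1 t x)) :=
    hcomp _ _ g1 hP1.lev hP1.rel (hsymm _ _ hAB)
  have c5 : AH b (j : ℕ) T0 (fun t x => A P0 t (g1 t x)) (fun t x => Φ t (g1 t x)) :=
    hcomp _ _ g1 hP1.lev hP1.rel hΦA
  have c := htrans _ _ _ c1 (htrans _ _ _ c2 (htrans _ _ _ hu1 (htrans _ _ _ c4 c5)))
  set Rm : ℝ := max R2 R with hRm
  have hΦ' : Lev b (j : ℕ) Rm Φ := hΦ.mono (le_max_left _ _)
  have hg0' : Lev b (j : ℕ) Rm g0 := hP0.lev.mono (le_max_right _ _)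
  have hg1' : Lev b (j : ℕ) Rm g1 := hP1.lev.mono (le_max_right _ _)
  obtain ⟨Rf, G, hGl, hG0, hG1, hGr⟩ := (hS b (j : ℕ) T T0 j.2).2 Rm (fun t => Φ t * g0 t)
    (fun t => Φ t * g1 t) (hΦ'.mul hg0') (hΦ'.mul hg1') c
  refine ⟨max Rf Rm, fun p => (Φ p.1)⁻¹ * G p, ?_, ?_, ?_, ?_⟩
  · have h1 : Lev b (j : ℕ) (max Rf Rm) (fun p : T × I => (Φ p.1)⁻¹) :=
      ((hΦ'.mono (le_max_right _ _)).reparam continuous_fst).inv
    exact h1.mul (hGl.mono (le_max_left _ _))
  · intro t
    simp only [hG0]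
    rw [inv_mul_cancel_left]
  · intro t
    simp only [hG1]
    rw [inv_mul_cancel_left]
  · intro t ht s
    simp only [hGr t ht s, hΦ0 t ht]
    rw [inv_one, mul_one]

end dl

end Pool.Agent.TOL
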