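import Mathlib
import Pool.Agent.TOL.DL

set_option maxSynthPendingDepth 3

open scoped ContDiff Distributions Topology unitInterval
open Set Function TopologicalSpace

namespace Pool.Agent.TOL

open Pool.Agent.Helper17 Pool.Agent.TOR

section words

variable {n N : ℕ} {b : Module.Basis (Fin N) ℝ (Phase n)}

lemma word_one (k : ℕ) (v : Fin k → Phase n) : word k v 1 = 1 := by
  induction k with
  | zero => rfl
  | succ k ih =>
    simp only [word]
    rw [ih, cm_one]

/-- Commutators commute with the translations which commute with `g`. -/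
lemma word_comm (k : ℕ) (v : Fin k → Phase n) {g : Equiv.Perm (Phase n)} {w : Phase n}
    (h : ∀ x, g (x + w) = g x + w) : ∀ x, word k v g (x + w) = word k v g x + w := by
  induction k with
  | zero => exact h
  | succ k ih =>
    intro x
    simp only [word, cm_apply]
    rw [symm_add (ih _)]
    have h1 : ∀ y : Phase n, y + w - v (Fin.last k) = (y - v (Fin.last k)) + w := fun y => by abel
    rw [h1, ih]
    abel

/-- The vectors of the iterated commutator. -/
noncomputable def wv (b : Module.Basis (Fin N) ℝ (Phase n)) {k : ℕ} (hk : k ≤ N)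
    (θ : Fin k → I) : Fin k → Phase n := fun i => (θ i : ℝ) • b (Fin.castLE hk i)

/-- The commutators are trivial on the boundary of the cube. -/
lemma word_bdry {k : ℕ} (hk : k ≤ N) {θ : Fin k → I} {g : Equiv.Perm (Phase n)}
    (hg : ∀ i : Fin N, (i : ℕ) < k → ∀ x, g (x + b i) = g x + b i)
    (hθ : θ ∈ Cube.boundary (Fin k)) : word k (wv b hk θ) g = 1 := by
  induction k with
  | zero =>
    obtain ⟨i, -⟩ := hθ
    exact i.elim0
  | succ k ih =>
    have hk' : k ≤ N := Nat.le_of_succ_le hk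
    have e : (fun i : Fin k => wv b hk θ i.castSucc) = wv b hk' (fun i => θ i.castSucc) := rfl
    have hlast : word (k + 1) (wv b hk θ) g = cm (wv b hk θ (Fin.last k))
        (word k (wv b hk' (fun i => θ i.castSucc)) g) := rfl
    rw [hlast]
    obtain ⟨i, hi⟩ := hθ
    induction i using Fin.lastCases with
    | last =>
      rcases hi with hi | hi
      · have : wv b hk θ (Fin.last k) = 0 := by
          simp only [wv, hi]
          rw [Icc.coe_zero, zero_smul]
        rw [this, cm_zero]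
      · have : wv b hk θ (Fin.last k) = b (Fin.castLE hk (Fin.last k)) := by
          simp only [wv, hi]
          rw [Icc.coe_one, one_smul]
        rw [this]
        apply cm_eq_one
        apply word_comm
        exact hg _ (Nat.lt_succ_self k)
    | cast i =>
      rw [ih hk' (fun i hi x => hg i (Nat.lt_succ_of_lt hi) x) ⟨i, hi⟩, cm_one]

lemma repr_wv {k : ℕ} (hk : k ≤ N) (θ : Fin k → I) (i : Fin k) {l : Fin N} (hl : k ≤ (l : ℕ)) :
    b.repr (wv b hk θ i) l = 0 := by
  simp only [wv]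
  rw [repr_smul_basis, if_neg]
  intro h
  have h1 : (i : ℕ) = (l : ℕ) := by rw [← h]; rfl
  have := i.2
  omega

/-- Iterated commutators of families. -/
lemma word_lev {m : ℕ} {R : ℝ} {T : Type} [TopologicalSpace T]
    {F : T → Equiv.Perm (Phase n)} (hF : Lev b m R F) : ∀ (k : ℕ) (v : T → Fin k → Phase n),
    (∀ i, Continuous (fun t => v t i)) →
    (∀ t i, ∀ l : Fin N, m ≤ (l : ℕ) → b.repr (v t i) l = 0) →
    Lev b m R (fun t => word k (v t) (F t)) := by
  intro k
  induction k with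
  | zero => intro v _ _; exact hF
  | succ k ih =>
    intro v hv hv0
    have h1 := ih (fun t i => v t i.castSucc) (fun i => hv _) (fun t i l hl => hv0 t _ l hl)
    exact h1.cm (hv (Fin.last k)) (fun t l hl => hv0 t _ l hl)

/-- Periodizations and commutators. -/
lemma Per1.cm {j : Fin N} {δ R : ℝ} {T : Type} [TopologicalSpace T]
    {g P : T → Equiv.Perm (Phase n)} (hδ : 0 < δ) (h : Per1 b j δ R ∅ g P) {v : T → Phase n}
    (hv : Continuous v) (hv0 : ∀ t, ∀ l : Fin N, (j : ℕ) ≤ (l : ℕ) → b.repr (v t) l = 0) :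
    Per1 b j δ R ∅ (fun t => TOL.cm (v t) (g t)) (fun t => TOL.cm (v t) (P t)) := by
  have hξ : ∀ t (x : Phase n), b.repr (x - v t) j = b.repr x j := by
    intro t x
    rw [map_sub, Finsupp.sub_apply, hv0 t j le_rfl, sub_zero]
  refine ⟨h.lev.cm hv hv0, h.levP.cm hv (fun t l hl => hv0 t l (by omega)), ?_, ?_, ?_⟩
  · intro t x hne
    by_contra hcon
    apply hne
    have h1 : ∀ y : Phase n, b.repr y j = b.repr x j → g t y = y := by
      intro y hy
      by_contra hy'
      have := h.margin t y hy'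
      rw [hy] at this
      exact hcon this
    have h2 : (g t).symm x = x := by
      rw [Equiv.symm_apply_eq]
      exact (h1 x rfl).symm
    rw [cm_apply, h2, h1 _ (hξ t x), sub_add_cancel]
  · intro t x h0 h1
    have hyx : g t ((g t).symm x) = x := Equiv.apply_symm_apply _ _
    have hy : 0 ≤ b.repr ((g t).symm x) j ∧ b.repr ((g t).symm x) j ≤ 1 := by
      by_cases hne : g t ((g t).symm x) = (g t).symm x
      · rw [← hne, hyx]
        exact ⟨h0, h1⟩
      · have := h.margin t _ hne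
        constructor <;> linarith
    have h2 : (P t).symm x = (g t).symm x := by
      rw [Equiv.symm_apply_eq, h.eq t _ hy.1 hy.2, hyx]
    rw [cm_apply, cm_apply, h2, h.eq t _ (by rw [hξ]; exact hy.1) (by rw [hξ]; exact hy.2)]
  · intro t ht
    exact absurd ht (notMem_empty t)

lemma word_per1 {j : Fin N} {δ R : ℝ} {T : Type} [TopologicalSpace T]
    {g P : T → Equiv.Perm (Phase n)} (hδ : 0 < δ) (h : Per1 b j δ R ∅ g P) :
    ∀ (k : ℕ) (v : T → Fin k → Phase n), (∀ i, Continuous (fun t => v t i)) →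
    (∀ t i, ∀ l : Fin N, (j : ℕ) ≤ (l : ℕ) → b.repr (v t i) l = 0) →
    Per1 b j δ R ∅ (fun t => word k (v t) (g t)) (fun t => word k (v t) (P t)) := by
  intro k
  induction k with
  | zero => intro v _ _; exact h
  | succ k ih =>
    intro v hv hv0
    have h1 := ih (fun t i => v t i.castSucc) (fun i => hv _) (fun t i l hl => hv0 t _ l hl)
    exact Per1.cm hδ h1 (hv (Fin.last k)) (fun t l hl => hv0 t _ l hl)

lemma Per1.reparam {j : Fin N} {δ R : ℝ} {T T' : Type} [TopologicalSpace T]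
    [TopologicalSpace T'] {g P : T → Equiv.Perm (Phase n)} (h : Per1 b j δ R ∅ g P) {f : T' → T}
    (hf : Continuous f) : Per1 b j δ R ∅ (fun t => g (f t)) (fun t => P (f t)) :=
  ⟨h.lev.reparam hf, h.levP.reparam hf, fun t => h.margin (f t), fun t => h.eq (f t),
    fun t ht => absurd ht (notMem_empty t)⟩

lemma Per1.rel_of {j : Fin N} {δ R : ℝ} {T : Type} [TopologicalSpace T]
    {g P : T → Equiv.Perm (Phase n)} (h : Per1 b j δ R ∅ g P) {S : Set T}
    (hS : ∀ t ∈ S, g t = 1) : Per1 b j δ R S g P :=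
  ⟨h.lev, h.levP, h.margin, h.eq, hS⟩

/-! ### The descent -/

/-- The family of iterated commutators over `T × I^k`. -/
noncomputable def VV (b : Module.Basis (Fin N) ℝ (Phase n)) {T : Type} {k : ℕ} (hk : k ≤ N)
    (P : T → Equiv.Perm (Phase n)) (p : T × (Fin k → I)) : Equiv.Perm (Phase n) :=
  word k (wv b hk p.2) (P p.1)

/-- The relative part of `T × I^k`. -/
def SS (k : ℕ) {T : Type} (T0 : Set T) : Set (T × (Fin k → I)) :=
  {p | p.1 ∈ T0 ∨ p.2 ∈ Cube.boundary (Fin k)}

lemma continuous_wv {k : ℕ} (hk : k ≤ N) {T : Type} [TopologicalSpace T] (i : Fin k) :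
    Continuous (fun p : T × (Fin k → I) => wv b hk p.2 i) := by
  have h1 : Continuous (fun p : T × (Fin k → I) => ((p.2 i : I) : ℝ)) :=
    continuous_subtype_val.comp ((continuous_apply i).comp continuous_snd)
  exact h1.smul continuous_const

lemma VV_rel {T : Type} {k m : ℕ} (hk : k ≤ N) (hkm : k ≤ m) {R : ℝ} [TopologicalSpace T]
    {P : T → Equiv.Perm (Phase n)} (hP : Lev b m R P) {T0 : Set T} (h0 : ∀ t ∈ T0, P t = 1)
    {p : T × (Fin k → I)} (hp : p ∈ SS k T0) : VV b hk P p = 1 := by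
  rcases hp with hp | hp
  · simp only [VV]
    rw [h0 _ hp, word_one]
  · exact word_bdry hk (fun i hi x => hP.per p.1 i (by omega) x) hp

lemma VV_lev {T : Type} {k m : ℕ} (hk : k ≤ N) (hkm : k ≤ m) {R : ℝ} [TopologicalSpace T]
    {P : T → Equiv.Perm (Phase n)} (hP : Lev b m R P) : Lev b m R (VV b hk P) :=
  word_lev (hP.reparam continuous_fst) k _ (fun i => continuous_wv hk i)
    (fun _ i _ hl => repr_wv hk _ i (by omega))

/-- Descent with the same number of loops. -/
lemma stepA (hDL : St_DL) {T : Type} [TopologicalSpace T] [CompactSpace T] {T0 : Set T}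
    {k m : ℕ} (hk : k ≤ N) (hkm : k ≤ m) (hm : m < N) {δ R : ℝ} (hδ : 0 < δ) (hδ' : δ ≤ 1 / 2)
    {p0 p1 q0 q1 : T → Equiv.Perm (Phase n)} (h0 : Per1 b ⟨m, hm⟩ δ R ∅ q0 p0)
    (h1 : Per1 b ⟨m, hm⟩ δ R ∅ q1 p1) (h0r : ∀ t ∈ T0, q0 t = 1) (h1r : ∀ t ∈ T0, q1 t = 1)
    (H : LH b (m + 1) (SS k T0) (VV b hk p0) (VV b hk p1)) :
    LH b m (SS k T0) (VV b hk q0) (VV b hk q1) := by
  have hz : ∀ t (i : Fin k), ∀ l : Fin N, ((⟨m, hm⟩ : Fin N) : ℕ) ≤ (l : ℕ) →
      b.repr (wv b hk (t : T × (Fin k → I)).2 i) l = 0 := by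
    intro t i l hl
    exact repr_wv hk _ i (by simp only at hl; omega)
  have e0 : Per1 b ⟨m, hm⟩ δ R (SS k T0) (VV b hk q0) (VV b hk p0) :=
    (word_per1 hδ (h0.reparam continuous_fst) k _ (fun i => continuous_wv hk i) hz).rel_of
      (fun t ht => VV_rel hk hkm h0.lev h0r ht)
  have e1 : Per1 b ⟨m, hm⟩ δ R (SS k T0) (VV b hk q1) (VV b hk p1) :=
    (word_per1 hδ (h1.reparam continuous_fst) k _ (fun i => continuous_wv hk i) hz).rel_of
      (fun t ht => VV_rel hk hkm h1.lev h1r ht)
  refine hDL b ⟨m, hm⟩ (T × (Fin k → I)) (SS k T0) δ R _ _ _ _ hδ hδ' e0 e1 ?_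
  obtain ⟨R', F, hF, hF0, hF1, hFr⟩ := H
  refine ⟨R', fun p => cm ((p.1.2 : ℝ) • b ⟨m, hm⟩) (F (p.1.1, p.2)), ?_, ?_, ?_, ?_⟩
  · have h2 : Lev b (m + 1) R' (fun p : ((T × (Fin k → I)) × I) × I => F (p.1.1, p.2)) :=
      hF.reparam ((continuous_fst.comp continuous_fst).prodMk continuous_snd)
    refine h2.cm ?_ ?_
    · exact (continuous_subtype_val.comp (continuous_snd.comp continuous_fst)).smul
        continuous_const
    · intro t l hl
      rw [repr_smul_basis, if_neg]
      intro h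
      rw [← h] at hl
      simp only at hl
      omega
  · intro t
    simp only [hF0]
  · intro t
    simp only [hF1]
  · intro t ht s
    rcases ht with ht | ht | ht
    · simp only [hFr _ ht, cm_one]
    · simp only [ht]
      rw [Icc.coe_zero, zero_smul, cm_zero]
    · simp only [ht]
      rw [Icc.coe_one, one_smul]
      apply cm_eq_one
      intro x
      exact hF.per _ ⟨m, hm⟩ (Nat.lt_succ_self m) x

/-- Descent using up one loop. -/
lemma stepB (hDL : St_DL) {T : Type} [TopologicalSpace T] [CompactSpace T] {T0 : Set T}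
    {m : ℕ} (hm : m < N) {δ R : ℝ} (hδ : 0 < δ) (hδ' : δ ≤ 1 / 2)
    {p0 p1 q0 q1 : T → Equiv.Perm (Phase n)} (h0 : Per1 b ⟨m, hm⟩ δ R ∅ q0 p0)
    (h1 : Per1 b ⟨m, hm⟩ δ R ∅ q1 p1) (h0r : ∀ t ∈ T0, q0 t = 1) (h1r : ∀ t ∈ T0, q1 t = 1)
    (H : LH b (m + 1) (SS (m + 1) T0) (VV b (Nat.succ_le_of_lt hm) p0)
      (VV b (Nat.succ_le_of_lt hm) p1)) :
    LH b m (SS m T0) (VV b hm.le q0) (VV b hm.le q1) := by
  have hz : ∀ t (i : Fin m), ∀ l : Fin N, ((⟨m, hm⟩ : Fin N) : ℕ) ≤ (l : ℕ) →
      b.repr (wv b hm.le (t : T × (Fin m → I)).2 i) l = 0 := by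
    intro t i l hl
    exact repr_wv hm.le _ i (by simp only at hl; omega)
  have e0 : Per1 b ⟨m, hm⟩ δ R (SS m T0) (VV b hm.le q0) (VV b hm.le p0) :=
    (word_per1 hδ (h0.reparam continuous_fst) m _ (fun i => continuous_wv hm.le i) hz).rel_of
      (fun t ht => VV_rel hm.le le_rfl h0.lev h0r ht)
  have e1 : Per1 b ⟨m, hm⟩ δ R (SS m T0) (VV b hm.le q1) (VV b hm.le p1) :=
    (word_per1 hδ (h1.reparam continuous_fst) m _ (fun i => continuous_wv hm.le i) hz).rel_of
      (fun t ht => VV_rel hm.le le_rfl h1.lev h1r ht)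
  refine hDL b ⟨m, hm⟩ (T × (Fin m → I)) (SS m T0) δ R _ _ _ _ hδ hδ' e0 e1 ?_
  obtain ⟨R', F, hF, hF0, hF1, hFr⟩ := H
  -- the change of parameters
  set φ : (T × (Fin m → I)) × I → T × (Fin (m + 1) → I) := fun p =>
    (p.1.1, fun i => Fin.lastCases (motive := fun _ => I) p.2 p.1.2 i) with hφ
  have hφl : ∀ p, (φ p).2 (Fin.last m) = p.2 := by
    intro p
    simp only [hφ, Fin.lastCases_last]
  have hφc : ∀ p (i : Fin m), (φ p).2 i.castSucc = p.1.2 i := by
    intro p i
    simp only [hφ, Fin.lastCases_castSucc]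
  have hφcont : Continuous φ := by
    refine (continuous_fst.comp continuous_fst).prodMk (continuous_pi fun i => ?_)
    induction i using Fin.lastCases with
    | last =>
      simp only [Fin.lastCases_last]
      exact continuous_snd
    | cast i =>
      simp only [Fin.lastCases_castSucc]
      exact (continuous_apply i).comp (continuous_snd.comp continuous_fst)
  have hVV : ∀ (P : T → Equiv.Perm (Phase n)) p, VV b (Nat.succ_le_of_lt hm) P (φ p) =
      cm ((p.2 : ℝ) • b ⟨m, hm⟩) (VV b hm.le P p.1) := by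
    intro P p
    have h2 : (fun i : Fin m => wv b (Nat.succ_le_of_lt hm) (φ p).2 i.castSucc) =
        wv b hm.le p.1.2 := by
      funext i
      simp only [wv, hφc]
      rfl
    have h3 : wv b (Nat.succ_le_of_lt hm) (φ p).2 (Fin.last m) = (p.2 : ℝ) • b ⟨m, hm⟩ := by
      simp only [wv, hφl]
      rfl
    simp only [VV, word]
    rw [h2, h3]
  refine ⟨R', fun p => F (φ p.1, p.2), ?_, ?_, ?_, ?_⟩
  · exact hF.reparam ((hφcont.comp continuous_fst).prodMk continuous_snd)
  · intro t
    simp only [hF0, hVV]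
  · intro t
    simp only [hF1, hVV]
  · intro t ht s
    refine hFr _ ?_ _
    rcases ht with (ht | ht) | ht
    · exact Or.inl ht
    · obtain ⟨i, hi⟩ := ht
      refine Or.inr ⟨i.castSucc, ?_⟩
      rw [hφc]
      exact hi
    · refine Or.inr ⟨Fin.last m, ?_⟩
      rw [hφl]
      exact ht

end words

end Pool.Agent.TOL
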