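import Mathlib
import Pool.Agent.TOL.DL
import Pool.Agent.Helper17.AdmPath

set_option maxSynthPendingDepth 3

open scoped ContDiff Distributions Topology unitInterval
open Set Function TopologicalSpace

namespace Pool.Agent.TOL

open Pool.Agent.Helper17 Pool.Agent.TOR

section sympl

variable {n N : ℕ} {b : Module.Basis (Fin N) ℝ (Phase n)}

/-- If the map is symplectic, so is Moser's isotopy. -/
lemma syl_symp {A B : Phase n →L[ℝ] Phase n} {s : ℝ}
    (hcons : ∀ v w, (1 - s) * omegaStd (B v) (B w) + s * omegaStd (A (B v)) (A (B w)) =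
      omegaStd v w) (h : s = 1 ∨ ∀ u v, omegaStd (A u) (A v) = omegaStd u v) (u v : Phase n) :
    omegaStd (A (B u)) (A (B v)) = omegaStd u v := by
  rcases h with h | h
  · have := hcons u v
    rw [h, sub_self, zero_mul, one_mul, zero_add] at this
    exact this
  · have := hcons u v
    rw [h] at this ⊢
    linear_combination this

/-- The parameter of Moser's isotopy along the concatenated homotopy. -/
noncomputable def sylr (s : I) : I := pr (min (3 * (s : ℝ)) (3 - 3 * s))

/-- The parameter of the homotopy along the concatenated homotopy. -/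
noncomputable def sylc (s : I) : I := pr (3 * (s : ℝ) - 1)

lemma continuous_sylr : Continuous sylr :=
  continuous_pr.comp ((continuous_const.mul continuous_subtype_val).min
    (continuous_const.sub (continuous_const.mul continuous_subtype_val)))

lemma continuous_sylc : Continuous sylc :=
  continuous_pr.comp ((continuous_const.mul continuous_subtype_val).sub continuous_const)

lemma pr_one_le {x : ℝ} (h : 1 ≤ x) : pr x = 1 := projIcc_of_right_le zero_le_one h

lemma pr_nonpos {x : ℝ} (h : x ≤ 0) : pr x = 0 := projIcc_of_le_left zero_le_one h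

lemma sylr_zero : sylr 0 = 0 := by
  unfold sylr
  apply pr_nonpos
  rw [Icc.coe_zero]
  norm_num

lemma sylr_one : sylr 1 = 0 := by
  unfold sylr
  apply pr_nonpos
  rw [Icc.coe_one]
  norm_num

lemma sylc_zero : sylc 0 = 0 := by
  unfold sylc
  apply pr_nonpos
  rw [Icc.coe_zero]
  norm_num

lemma sylc_one : sylc 1 = 1 := by
  unfold sylc
  apply pr_one_le
  rw [Icc.coe_one]
  norm_num

lemma syl_cases (s : I) : sylr s = 1 ∨ sylc s = 0 ∨ sylc s = 1 := by
  rcases le_or_gt (3 * (s : ℝ)) 1 with h | h
  · right; left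
    exact pr_nonpos (by linarith)
  · rcases le_or_gt 2 (3 * (s : ℝ)) with h' | h'
    · right; right
      exact pr_one_le (by linarith)
    · left
      exact pr_one_le (le_min (by linarith) (by linarith))

end sympl

theorem thm_Sympl (hM : St_MoserLev) (hB : St_Bij) : St_Sympl := by
  intro n N b j T _ _ T0 hj
  constructor
  · intro R Ψ hΨ hΨ0
    obtain ⟨ρ, hρ, hcons, hρs, hρ0, hρid, hρper⟩ := hM b j T R Ψ hΨ
    have hd : ∀ (t : T) (s : I) x, fderiv ℝ (fun x => Ψ t (ρ (t, s) x)) x =
        (fderiv ℝ (Ψ t) (ρ (t, s) x)).comp (fderiv ℝ (ρ (t, s)) x) := fun t s x =>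
      fderiv_comp x (hΨ.cf.differentiable t _) (hρ.differentiable (t, s) x)
    have hlev : ALev b j R (fun (p : T × I) x => Ψ p.1 (ρ p x)) := by
      refine ⟨(hΨ.cf.base continuous_fst).comp hρ, ?_, ?_, ?_⟩
      · intro p x
        have h1 := hd p.1 p.2 x
        have h2 : (fun x => Ψ p.1 (ρ p x)) = fun x => Ψ p.1 (ρ (p.1, p.2) x) := rfl
        rw [h2, h1]
        exact admissible_moser p.2.2 (hΨ.adm p.1 _) (fun v w => hcons p.1 p.2 x v w)
      · intro p i hi x
        beta_reduce
        rw [hρper p i hi, hΨ.per p.1 i hi]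
      · intro p x hx
        beta_reduce
        rw [hρs p x hx, hΨ.supp p.1 x hx]
    have hc1 : Continuous (fun t : T => ((t, (1 : I)) : T × I)) :=
      continuous_id.prodMk continuous_const
    have hlev1 := hlev.reparam hc1
    obtain ⟨Φ, hΦ, hΦe⟩ := hB b j T R (fun t x => Ψ t (ρ (t, 1) x)) hj hlev1.cf (by
      intro t x u v
      rw [hd t 1 x]
      exact syl_symp (s := 1) (fun v w => hcons t 1 x v w) (Or.inl rfl) u v) hlev1.per hlev1.supp
    refine ⟨Φ, hΦ, ?_, R, fun p x => Ψ p.1 (ρ p x), hlev, ?_, ?_, ?_⟩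
    · intro t ht
      ext1 x
      rw [hΦe, hρid t (hΨ0 t ht), hΨ0 t ht]
      rfl
    · intro t x
      beta_reduce
      rw [hρ0 t x]
    · intro t x
      exact (hΦe t x).symm
    · intro t ht s x
      beta_reduce
      rw [hρid t (hΨ0 t ht), hΨ0 t ht]
  · intro R g0 g1 hg0 hg1 h
    obtain ⟨R', F, hF, hF0, hF1, hFr⟩ := h
    obtain ⟨ρ, hρ, hcons, hρs, hρ0, hρid, hρper⟩ := hM b j (T × I) R' F hF
    have hd : ∀ (p : T × I) (s : I) x, fderiv ℝ (fun x => F p (ρ (p, s) x)) x =
        (fderiv ℝ (F p) (ρ (p, s) x)).comp (fderiv ℝ (ρ (p, s)) x) := fun p s x =>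
      fderiv_comp x (hF.cf.differentiable p _) (hρ.differentiable (p, s) x)
    have hs0 : ∀ t x u v, omegaStd (fderiv ℝ (F (t, 0)) x u) (fderiv ℝ (F (t, 0)) x v) =
        omegaStd u v := by
      intro t
      have e : F (t, 0) = g0 t := funext (hF0 t)
      rw [e]
      exact hg0.symp t
    have hs1 : ∀ t x u v, omegaStd (fderiv ℝ (F (t, 1)) x u) (fderiv ℝ (F (t, 1)) x v) =
        omegaStd u v := by
      intro t
      have e : F (t, 1) = g1 t := funext (hF1 t)
      rw [e]
      exact hg1.symp t
    have hc : Continuous (fun p : T × I => (((p.1, sylc p.2), sylr p.2) : (T × I) × I)) :=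
      (continuous_fst.prodMk (continuous_sylc.comp continuous_snd)).prodMk
        (continuous_sylr.comp continuous_snd)
    have hc' : Continuous (fun p : T × I => ((p.1, sylc p.2) : T × I)) :=
      continuous_fst.prodMk (continuous_sylc.comp continuous_snd)
    set G : T × I → Phase n → Phase n := fun p x =>
      F (p.1, sylc p.2) (ρ ((p.1, sylc p.2), sylr p.2) x) with hG
    have hGcf : CF G := (hF.cf.base hc').comp (hρ.base hc)
    obtain ⟨Φ, hΦ, hΦe⟩ := hB b j (T × I) R' G hj hGcf (by
      intro p x u v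
      have h1 := hd (p.1, sylc p.2) (sylr p.2) x
      simp only [hG]
      rw [h1]
      refine syl_symp (s := (sylr p.2 : ℝ)) (fun v w => hcons _ (sylr p.2) x v w) ?_ u v
      rcases syl_cases p.2 with h | h | h
      · left
        rw [h]
        rfl
      · right
        intro u v
        rw [h]
        exact hs0 _ _ u v
      · right
        intro u v
        rw [h]
        exact hs1 _ _ u v) (by
      intro p i hi x
      simp only [hG]
      rw [hρper _ i hi, hF.per _ i hi]) (by
      intro p x hx
      simp only [hG]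
      rw [hρs _ x hx, hF.supp _ x hx])
    refine ⟨R', Φ, hΦ, ?_, ?_, ?_⟩
    · intro t
      ext1 x
      rw [hΦe]
      simp only [hG, sylr_zero, sylc_zero]
      rw [hρ0, hF0]
    · intro t
      ext1 x
      rw [hΦe]
      simp only [hG, sylr_one, sylc_one]
      rw [hρ0, hF1]
    · intro t ht s
      ext1 x
      rw [hΦe]
      simp only [hG]
      rw [hρid _ (fun x => hFr t ht _ x), hFr t ht]
      rfl

end Pool.Agent.TOL
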