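import Mathlib
import Pool.Agent.TOL.Basic
import Pool.Agent.Helper17.AdmPath

set_option maxSynthPendingDepth 3

open scoped ContDiff Distributions Topology unitInterval
open Set Function TopologicalSpace

namespace Pool.Agent.TOL

open Pool.Agent.Helper17 Pool.Agent.TOR

section ahc

variable {n N : ℕ} {b : Module.Basis (Fin N) ℝ (Phase n)}

lemma ahc_symm {j : ℕ} {T : Type} [TopologicalSpace T] {T0 : Set T}
    {F0 F1 : T → Phase n → Phase n} (h : AH b j T0 F0 F1) : AH b j T0 F1 F0 := by
  obtain ⟨R, F, hF, h0, h1, hr⟩ := h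
  have hc : Continuous (fun p : T × I => ((p.1, unitInterval.symm p.2) : T × I)) :=
    continuous_fst.prodMk (unitInterval.continuous_symm.comp continuous_snd)
  refine ⟨R, fun p => F (p.1, unitInterval.symm p.2), ⟨hF.cf.base hc, fun p => hF.adm _,
    fun p => hF.per _, fun p => hF.supp _⟩, ?_, ?_, ?_⟩
  · intro t x
    change F (t, unitInterval.symm 0) x = _
    rw [unitInterval.symm_zero]
    exact h1 t x
  · intro t x
    change F (t, unitInterval.symm 1) x = _
    rw [unitInterval.symm_one]
    exact h0 t x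
  · intro t ht s x
    exact hr t ht _ x

/-- Gluing of two smooth families. -/
lemma ahc_glue {T : Type} [TopologicalSpace T] {E E' : Type} [NormedAddCommGroup E]
    [NormedSpace ℝ E] [NormedAddCommGroup E'] [NormedSpace ℝ E'] {F G : T × I → E → E'}
    (hF : CF F) (hG : CF G) (h : ∀ t, F (t, 1) = G (t, 0)) :
    CF (fun (p : T × I) => if (p.2 : ℝ) ≤ 1 / 2 then F (p.1, half1 p.2) else
      G (p.1, half2 p.2)) := by
  have hc1 : Continuous (fun p : T × I => ((p.1, half1 p.2) : T × I)) :=
    continuous_fst.prodMk (continuous_half1.comp continuous_snd)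
  have hc2 : Continuous (fun p : T × I => ((p.1, half2 p.2) : T × I)) :=
    continuous_fst.prodMk (continuous_half2.comp continuous_snd)
  have hmid : ∀ p : T × I, (p.2 : ℝ) = 1 / 2 → F (p.1, half1 p.2) = G (p.1, half2 p.2) := by
    intro p hp
    have e1 : half1 p.2 = 1 := by
      rw [half1, hp]
      norm_num
    have e2 : half2 p.2 = 0 := by
      rw [half2, hp]
      norm_num
    rw [e1, e2, h]
  intro k
  apply CFk.of_iteratedFDeriv
  · intro p
    split_ifs
    · exact hF.contDiff _
    · exact hG.contDiff _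
  · intro i
    have e : (fun q : (T × I) × E => iteratedFDeriv ℝ i
        (if (q.1.2 : ℝ) ≤ 1 / 2 then F (q.1.1, half1 q.1.2) else G (q.1.1, half2 q.1.2)) q.2) =
        fun q => if (q.1.2 : ℝ) ≤ 1 / 2 then iteratedFDeriv ℝ i (F (q.1.1, half1 q.1.2)) q.2 else
          iteratedFDeriv ℝ i (G (q.1.1, half2 q.1.2)) q.2 := by
      ext1 q
      split_ifs <;> rfl
    rw [e]
    apply Continuous.if_le
    · exact CF.continuous_iteratedFDeriv i (hF.base hc1)
    · exact CF.continuous_iteratedFDeriv i (hG.base hc2)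
    · exact continuous_subtype_val.comp (continuous_snd.comp continuous_fst)
    · exact continuous_const
    · intro q hq
      rw [hmid q.1 hq]

lemma ahc_trans {j : ℕ} {T : Type} [TopologicalSpace T] {T0 : Set T}
    {F0 F1 F2 : T → Phase n → Phase n} (h : AH b j T0 F0 F1) (h' : AH b j T0 F1 F2) :
    AH b j T0 F0 F2 := by
  obtain ⟨R, F, hF, h0, h1, hr⟩ := h
  obtain ⟨R', G, hG, h0', h1', hr'⟩ := h'
  have hFG : ∀ t, F (t, 1) = G (t, 0) := by
    intro t
    funext x
    rw [h1, h0']
  refine ⟨max R R', fun p => if (p.2 : ℝ) ≤ 1 / 2 then F (p.1, half1 p.2) else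
      G (p.1, half2 p.2), ⟨ahc_glue hF.cf hG.cf hFG, ?_, ?_, ?_⟩, ?_, ?_, ?_⟩
  · intro p x
    beta_reduce
    split_ifs
    · exact hF.adm _ x
    · exact hG.adm _ x
  · intro p i hi x
    beta_reduce
    split_ifs
    · exact hF.per _ i hi x
    · exact hG.per _ i hi x
  · intro p x hx
    beta_reduce
    split_ifs
    · exact hF.supp _ x fun h => hx (slab_mono (le_max_left _ _) h)
    · exact hG.supp _ x fun h => hx (slab_mono (le_max_right _ _) h)
  · intro t x
    beta_reduce
    rw [if_pos (by norm_num), ← h0]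
    have e : half1 0 = 0 := by
      rw [half1]
      norm_num
    rw [e]
  · intro t x
    beta_reduce
    rw [if_neg (by norm_num), ← h1']
    have e : half2 1 = 1 := by
      rw [half2]
      norm_num
    rw [e]
  · intro t ht s x
    beta_reduce
    split_ifs
    · exact hr t ht _ x
    · exact hr' t ht _ x

lemma ahc_comp {j : ℕ} {T : Type} [TopologicalSpace T] {T0 : Set T}
    {F0 F1 : T → Phase n → Phase n} {R : ℝ} {g : T → Equiv.Perm (Phase n)} (hg : Lev b j R g)
    (hg0 : ∀ t ∈ T0, g t = 1) (h : AH b j T0 F0 F1) :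
    AH b j T0 (fun t x => F0 t (g t x)) (fun t x => F1 t (g t x)) := by
  obtain ⟨R', F, hF, h0, h1, hr⟩ := h
  refine ⟨max R R', fun p x => F p (g p.1 x), ⟨?_, ?_, ?_, ?_⟩, ?_, ?_, ?_⟩
  · exact hF.cf.comp (hg.cf.base continuous_fst)
  · intro p x
    have e : fderiv ℝ (fun x => F p (g p.1 x)) x =
        (fderiv ℝ (F p) (g p.1 x)).comp (fderiv ℝ (g p.1) x) :=
      fderiv_comp x (hF.cf.differentiable p _) (hg.cf.differentiable p.1 x)
    rw [e]
    exact (hF.adm p _).comp_symplectic (hg.symp p.1 x)
  · intro p i hi x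
    beta_reduce
    rw [hg.per p.1 i hi, hF.per p i hi]
  · intro p x hx
    beta_reduce
    rw [hg.supp p.1 x fun h => hx (slab_mono (le_max_left _ _) h),
      hF.supp p x fun h => hx (slab_mono (le_max_right _ _) h)]
  · intro t x
    exact h0 t _
  · intro t x
    exact h1 t _
  · intro t ht s x
    beta_reduce
    rw [hg0 t ht]
    exact hr t ht s x

end ahc

theorem thm_AHc : St_AHc := by
  intro n N b j T _ T0 F0 F1 F2
  exact ⟨ahc_symm, ahc_trans, fun R g hg hg0 h => ahc_comp hg hg0 h⟩

end Pool.Agent.TOL
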