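import Mathlib
import Pool.Agent.TOL.DL
import Pool.Agent.TOR.Box
import Pool.Agent.TOR.TorTop

set_option maxSynthPendingDepth 3

open scoped ContDiff Distributions Topology unitInterval
open Set Function TopologicalSpace Filter

namespace Pool.Agent.TOL

open Pool.Agent.Helper17 Pool.Agent.TOR

section bij

/-- A smooth map with injective derivatives and bounded displacement, which fixes all the points of
a large ball, is bijective. -/
lemma bij_bounded {E : Type*} [NormedAddCommGroup E] [NormedSpace ℝ E] [FiniteDimensional ℝ E]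
    {f : E → E} (hf : ContDiff ℝ ∞ f)
    (hinj : ∀ x, Injective (fderiv ℝ f x)) {C : ℝ} (hC : ∀ x, ‖f x - x‖ ≤ C) {y₀ : E}
    (hfix : ∀ x, ‖x - y₀‖ ≤ C → f x = x) : Bijective f := by
  have : ProperSpace E := FiniteDimensional.proper ℝ E
  have hcont : Continuous f := hf.continuous
  have hopen : IsOpenMap f := isOpenMap_of_injective_fderiv hf hinj
  -- `f` is proper
  have hprop : IsProperMap f := by
    rw [isProperMap_iff_tendsto_cocompact]
    refine ⟨hcont, ?_⟩
    rw [← Metric.cobounded_eq_cocompact, ← tendsto_norm_atTop_iff_cobounded]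
    have h1 : Tendsto (fun x : E => ‖x‖ - C) (Bornology.cobounded E) atTop :=
      tendsto_atTop_add_const_right _ _ tendsto_norm_cobounded_atTop
    refine tendsto_atTop_mono (fun x => ?_) h1
    have h1 := hC x
    have h2 : ‖x‖ ≤ ‖f x‖ + ‖f x - x‖ := by
      have := norm_sub_le (f x) (f x - x)
      rwa [sub_sub_cancel] at this
    linarith
  have hclosed : IsClosedMap f := hprop.isClosedMap
  have hsurj : Surjective f := by
    have hcl : IsClopen (range f) := ⟨hclosed.isClosed_range, hopen.isOpen_range⟩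
    rcases isClopen_iff.1 hcl with h | h
    · exact absurd h (range_nonempty f).ne_empty
    · exact range_eq_univ.1 h
  refine ⟨?_, hsurj⟩
  -- the set of points with at most one preimage is clopen
  set S : Set E := {y | ∀ x x', f x = y → f x' = y → x = x'} with hS
  have hSopen : IsOpen S := by
    rw [isOpen_iff_mem_nhds]
    intro y hy
    obtain ⟨x, rfl⟩ := hsurj y
    obtain ⟨U, hU, hxU, hUinj⟩ := exists_open_injOn hf hinj x
    have hV : IsOpen (f '' Uᶜ)ᶜ := (hclosed _ hU.isClosed_compl).isOpen_compl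
    have hyV : f x ∈ (f '' Uᶜ)ᶜ := by
      rintro ⟨x', hx', hfx'⟩
      exact hx' ((hy x' x hfx' rfl) ▸ hxU)
    refine mem_of_superset (hV.mem_nhds hyV) ?_
    intro z hz a b ha hb
    have haU : a ∈ U := by
      by_contra h
      exact hz ⟨a, h, ha⟩
    have hbU : b ∈ U := by
      by_contra h
      exact hz ⟨b, h, hb⟩
    exact hUinj haU hbU (ha.trans hb.symm)
  have hSclosed : IsClosed S := by
    rw [← isOpen_compl_iff, isOpen_iff_mem_nhds]
    intro y hy
    have hy' : ∃ x x', f x = y ∧ f x' = y ∧ x ≠ x' := by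
      by_contra hcon
      apply hy
      intro x x' hx hx'
      by_contra hne
      exact hcon ⟨x, x', hx, hx', hne⟩
    obtain ⟨x, x', hx, hx', hne⟩ := hy'
    obtain ⟨U, V, hU, hV, hxU, hxV, hdisj⟩ := t2_separation hne
    have h1 : f '' U ∈ 𝓝 y := (hopen U hU).mem_nhds ⟨x, hxU, hx⟩
    have h2 : f '' V ∈ 𝓝 y := (hopen V hV).mem_nhds ⟨x', hxV, hx'⟩
    refine mem_of_superset (inter_mem h1 h2) ?_
    rintro z ⟨⟨a, haU, ha⟩, ⟨b, hbV, hb⟩⟩ hz
    have := hz a b ha hb
    exact (Set.disjoint_left.1 hdisj haU) (this ▸ hbV)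
  have hSne : S.Nonempty := by
    refine ⟨y₀, ?_⟩
    have key : ∀ x, f x = y₀ → x = y₀ := by
      intro x hx
      have h1 := hC x
      rw [hx, norm_sub_rev] at h1
      rw [← hx]
      exact (hfix x h1).symm
    intro a b ha hb
    rw [key a ha, key b hb]
  have hSuniv : S = univ := by
    rcases isClopen_iff.1 (⟨hSclosed, hSopen⟩ : IsClopen S) with h | h
    · exact absurd h hSne.ne_empty
    · exact h
  intro a b hab
  have : f b ∈ S := hSuniv ▸ mem_univ _
  exact this a b hab rfl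

end bij

theorem thm_Bij : St_Bij := by
  intro n N b j T _ _ R F hj hF hsymp hper hsupp
  -- bounded displacement
  obtain ⟨C, hC⟩ : ∃ C : ℝ, ∀ t x, ‖F t x - x‖ ≤ C := by
    obtain ⟨C, hC⟩ := thm_Box b j R T (Phase n) (fun p => F p.1 p.2 - p.2)
      (hF.continuous.sub continuous_snd) (by
        intro p x i hi
        simp only
        rw [hper p i hi x]
        abel)
    refine ⟨max C 0, fun t x => ?_⟩
    by_cases hx : x ∈ slab b j R
    · exact (hC t x hx).trans (le_max_left _ _)
    · rw [hsupp t x hx, sub_self, norm_zero]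
      exact le_max_right _ _
  have hinj : ∀ t x, Injective (fderiv ℝ (F t) x) := by
    intro t x
    rw [injective_iff_map_eq_zero]
    intro u hu
    apply eq_zero_of_omegaStd
    intro v
    rw [← hsymp t x u v, hu, omegaStd_zero_left]
  -- a far point
  obtain ⟨y₀, hy₀⟩ : ∃ y₀ : Phase n, ∀ t x, ‖x - y₀‖ ≤ C → F t x = x := by
    set ℓ : Phase n →L[ℝ] ℝ := LinearMap.toContinuousLinearMap (b.coord ⟨j, hj⟩) with hℓ
    have hℓa : ∀ x, ℓ x = b.repr x ⟨j, hj⟩ := fun x => rfl
    refine ⟨(|R| + ‖ℓ‖ * |C| + 1) • b ⟨j, hj⟩, fun t x hx => ?_⟩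
    apply hsupp
    apply not_mem_slab_of (i := ⟨j, hj⟩) le_rfl
    have h1 : ℓ ((|R| + ‖ℓ‖ * |C| + 1) • b ⟨j, hj⟩) = |R| + ‖ℓ‖ * |C| + 1 := by
      rw [hℓa, repr_smul_basis, if_pos rfl]
    have h2 : ‖ℓ (x - (|R| + ‖ℓ‖ * |C| + 1) • b ⟨j, hj⟩)‖ ≤ ‖ℓ‖ * |C| :=
      (ℓ.le_opNorm _).trans (mul_le_mul_of_nonneg_left (hx.trans (le_abs_self C)) (norm_nonneg _))
    rw [map_sub, h1, Real.norm_eq_abs] at h2
    have h3 := (abs_le.1 h2).1
    have h4 := le_abs_self R
    have h5 := le_abs_self (ℓ x)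
    rw [← hℓa]
    linarith
  have hbij : ∀ t, Bijective (F t) := fun t =>
    bij_bounded (hF.contDiff t) (hinj t) (hC t) (hy₀ t)
  refine ⟨fun t => Equiv.ofBijective (F t) (hbij t), ⟨hF, ?_, hsymp, hper, hsupp⟩, fun t x => rfl⟩
  exact tor_CF_inverse hF hC hinj
    (fun t x => (Equiv.ofBijective (F t) (hbij t)).apply_symm_apply x)
    (fun t x => (Equiv.ofBijective (F t) (hbij t)).symm_apply_apply x)

end Pool.Agent.TOL
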