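import Mathlib
import Pool.Agent.TOL.Words
import Pool.Agent.TOR.Assemble

set_option maxSynthPendingDepth 3

open scoped ContDiff Distributions Topology unitInterval
open Set Function TopologicalSpace

namespace Pool.Agent.TOL

open Pool.Agent.Helper17 Pool.Agent.TOR

section main

variable {n N : ℕ} {b : Module.Basis (Fin N) ℝ (Phase n)}

/-- The inclusion of the group of symplectomorphisms supported in `K`, as a continuous map. -/
noncomputable abbrev inclC {n : ℕ} (K : Compacts (Phase n)) : C(SympSupp n K, SympCt n) :=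
  ⟨SympSupp.incl K, SympSupp.continuous_incl K⟩

/-- The main statement. -/
def MainStatement (b : Module.Basis (Fin N) ℝ (Phase n)) : Prop :=
  ∀ K : Compacts (Phase n), (K : Set (Phase n)) ⊆ openBox b →
    ∃ P : C(SympSupp n K, TorusSymp b), (∀ φ, IsPer b K φ.1 (P φ)) ∧
      ∀ (j : ℕ) (hj : j ≤ N), ∃ L : C(SympSupp n K × (Fin j → I), TorusSymp b),
        (∀ φ θ, (L (φ, θ) : Equiv.Perm (Phase n)) =
          word j (fun i => (θ i : ℝ) • b (Fin.castLE hj i)) (P φ)) ∧
        (∀ φ, ∀ θ ∈ Cube.boundary (Fin j), L (φ, θ) = 1) ∧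
        (Convex ℝ (K : Set (Phase n)) → (interior (K : Set (Phase n))).Nonempty →
          ∀ (T : Type) [TopologicalSpace T] [CompactSpace T] (T0 : Set T),
            (∀ f : C(T, SympCt n), (∀ t ∈ T0, f t = 1) → ∃ g : C(T, SympSupp n K),
              (∀ t ∈ T0, (g t).1 = 1) ∧ f.HomotopicRel ((inclC K).comp g) T0) ∧
            ∀ f g : C(T, SympSupp n K), (∀ t ∈ T0, (f t).1 = 1) → (∀ t ∈ T0, (g t).1 = 1) →
              (((inclC K).comp f).HomotopicRel ((inclC K).comp g) T0 ↔
                (L.comp (f.prodMap (ContinuousMap.id (Fin j → I)))).HomotopicRel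
                  (L.comp (g.prodMap (ContinuousMap.id (Fin j → I))))
                  {p | p.1 ∈ T0 ∨ p.2 ∈ Cube.boundary (Fin j)}))

theorem assemble (hDL : St_DL) (hDil : St_DilRel) (hPers : TOR.St_Pers) (hTop : TOR.St_TorTop)
    (b : Module.Basis (Fin N) ℝ (Phase n)) : MainStatement b := by
  intro K hKb
  obtain ⟨hT1, hT2, -, -⟩ := hTop b
  obtain ⟨δ, Q, hδ, hδ', hQ, hQlev, hQsupp, hQeq, hQ0, hQN⟩ := hPers b K hKb
  have hlevid : Lev b N 1 (fun φ => Q N φ) := hQlev (SympSupp n K) id continuous_id N le_rfl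
  have hQone : ∀ m (φ : SympSupp n K), φ.1 = 1 → Q m φ = 1 := by
    intro m φ h
    ext1 x
    rw [hQ, h]
    change x - flr b m x + flr b m x = x
    abel
  set P : C(SympSupp n K, TorusSymp b) :=
    ⟨fun φ => ⟨Q N φ, hlevid.isTorusSymp φ⟩, by
      rw [hT1]; exact hlevid.cf⟩ with hP
  refine ⟨P, hQN, ?_⟩
  intro j hj
  -- the iterated commutators
  have hLlev : Lev b N 1 (VV b hj (fun φ : SympSupp n K => Q N φ)) := VV_lev hj hj hlevid
  set L : C(SympSupp n K × (Fin j → I), TorusSymp b) :=
    ⟨fun p => ⟨VV b hj (fun φ : SympSupp n K => Q N φ) p, hLlev.isTorusSymp p⟩, by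
      rw [hT1]; exact hLlev.cf⟩ with hL
  have hLbdry : ∀ φ, ∀ θ ∈ Cube.boundary (Fin j), L (φ, θ) = 1 := by
    intro φ θ hθ
    apply Subtype.ext
    exact word_bdry hj (fun i _ x => hlevid.per φ i i.2 x) hθ
  have hLone : ∀ φ : SympSupp n K, φ.1 = 1 → ∀ θ, L (φ, θ) = 1 := by
    intro φ h θ
    apply Subtype.ext
    change word j (wv b hj θ) (Q N φ) = 1
    rw [hQone N φ h, word_one]
  refine ⟨L, fun φ θ => rfl, hLbdry, ?_⟩
  intro hconv hint T _ _ T0
  obtain ⟨hD1, hD2⟩ := hDil K hconv hint T T0
  refine ⟨hD1, fun f g hf0 hg0 => ⟨fun h => ?_, fun h => ?_⟩⟩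
  · -- homotopies of maps give homotopies of commutators
    obtain ⟨H⟩ := hD2 f g hf0 hg0 h
    have hc : Continuous (fun q : I × (T × (Fin j → I)) => L (H (q.1, q.2.1), q.2.2)) := by
      refine L.continuous.comp ?_
      refine (H.continuous.comp ?_).prodMk (continuous_snd.comp continuous_snd)
      exact continuous_fst.prodMk (continuous_fst.comp continuous_snd)
    refine ⟨⟨⟨⟨fun q => L (H (q.1, q.2.1), q.2.2), hc⟩, ?_, ?_⟩, ?_⟩⟩
    · intro p
      change L (H (0, p.1), p.2) = L (f p.1, p.2)
      rw [H.apply_zero]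
    · intro p
      change L (H (1, p.1), p.2) = L (g p.1, p.2)
      rw [H.apply_one]
    · intro s p hp
      change L (H (s, p.1), p.2) = L (f p.1, p.2)
      rcases hp with hp | hp
      · rw [H.eq_fst s hp]
      · rw [hLbdry _ _ hp, hLbdry _ _ hp]
  · obtain ⟨H⟩ := h
    -- the homotopy at the highest level
    have hstart : LH b N (SS j T0) (VV b hj (fun t => Q N (f t))) (VV b hj (fun t => Q N (g t))) := by
      set F : (T × (Fin j → I)) × I → TorusSymp b := fun p => H (p.2, p.1) with hF
      have hFc : Continuous F := H.continuous.comp (continuous_snd.prodMk continuous_fst)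
      refine ⟨0, fun p => (F p : Equiv.Perm (Phase n)), hT2 _ F hFc 0, ?_, ?_, ?_⟩
      · intro p
        have h1 : F (p, 0) = L (f p.1, p.2) := H.apply_zero p
        beta_reduce
        rw [h1]
        rfl
      · intro p
        have h1 : F (p, 1) = L (g p.1, p.2) := H.apply_one p
        beta_reduce
        rw [h1]
        rfl
      · intro p hp s
        have h1 : F (p, s) = L (f p.1, p.2) := H.eq_fst s hp
        beta_reduce
        rw [h1]
        have h2 : L (f p.1, p.2) = 1 := by
          rcases hp with hp | hp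
          · exact hLone _ (hf0 _ hp) _
          · exact hLbdry _ _ hp
        rw [h2]
        rfl
    -- the partial periodizations
    have hper : ∀ (f : C(T, SympSupp n K)) (m : ℕ) (hm : m < N),
        Per1 b ⟨m, hm⟩ δ 1 ∅ (fun t => Q m (f t)) (fun t => Q (m + 1) (f t)) := by
      intro f m hm
      refine ⟨hQlev T f f.continuous m hm.le, hQlev T f f.continuous (m + 1) hm, ?_, ?_, ?_⟩
      · intro t x hne
        exact hQsupp m (f t) x hne ⟨m, hm⟩ le_rfl
      · intro t x h0 h1
        exact hQeq ⟨m, hm⟩ (f t) x h0 h1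
      · intro t ht
        exact absurd ht (notMem_empty t)
    have hrel : ∀ (f : C(T, SympSupp n K)), (∀ t ∈ T0, (f t).1 = 1) → ∀ m, ∀ t ∈ T0,
        Q m (f t) = 1 := fun f hf m t ht => hQone m _ (hf t ht)
    -- descent from `N` to `j`
    have hA : ∀ d m, m + d = N → j ≤ m →
        LH b m (SS j T0) (VV b hj (fun t => Q m (f t))) (VV b hj (fun t => Q m (g t))) := by
      intro d
      induction d with
      | zero =>
        intro m hm _
        rw [Nat.add_zero] at hm
        subst hm
        exact hstart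
      | succ d ih =>
        intro m hm hjm
        have hmN : m < N := by omega
        exact stepA hDL hj hjm hmN hδ hδ' (hper f m hmN) (hper g m hmN) (hrel f hf0 m)
          (hrel g hg0 m) (ih (m + 1) (by omega) (by omega))
    have hjj := hA (N - j) j (by omega) le_rfl
    -- descent from `j` to `0`
    have hB : ∀ m (hmN : m ≤ N),
        LH b m (SS m T0) (VV b hmN (fun t => Q m (f t))) (VV b hmN (fun t => Q m (g t))) →
        LH b 0 (SS 0 T0) (VV b (Nat.zero_le N) (fun t => Q 0 (f t)))
          (VV b (Nat.zero_le N) (fun t => Q 0 (g t))) := by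
      intro m
      induction m with
      | zero => intro _ h; exact h
      | succ m ih =>
        intro hmN h
        have hm : m < N := hmN
        exact ih hm.le (stepB hDL hm hδ hδ' (hper f m hm) (hper g m hm) (hrel f hf0 m)
          (hrel g hg0 m) h)
    obtain ⟨R, F, hF, hF0, hF1, hFr⟩ := hB j hj hjj
    -- the homotopy in the group of compactly supported maps
    have hc0 : Continuous (fun p : I × T => ((p.2, (fun i => i.elim0 : Fin 0 → I)), p.1)) :=
      (continuous_snd.prodMk continuous_const).prodMk continuous_fst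
    have hF' := hF.base hc0
    have hcont := hF'.continuous_toSymp
    refine ⟨⟨⟨⟨fun p : I × T => toSymp (F ((p.2, (fun i => i.elim0)), p.1)), hcont⟩, ?_, ?_⟩, ?_⟩⟩
    · intro t
      change toSymp (F ((t, _), 0)) = (f t).1
      rw [hF0]
      change toSymp (Q 0 (f t)) = (f t).1
      rw [hQ0, toSymp_coe]
    · intro t
      change toSymp (F ((t, _), 1)) = (g t).1
      rw [hF1]
      change toSymp (Q 0 (g t)) = (g t).1
      rw [hQ0, toSymp_coe]
    · intro s t ht
      change toSymp (F ((t, _), s)) = (f t).1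
      rw [hFr _ (Or.inl ht), hf0 t ht]
      exact toSymp_coe 1

end main

end Pool.Agent.TOL
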