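import Mathlib
import Pool.Agent.TOL.Stmts
import Pool.Agent.TOR.Box
import Pool.Agent.TOR.HamFlow
import Pool.Agent.Helper17.MoserFamily

set_option maxSynthPendingDepth 3

open scoped ContDiff Distributions Topology unitInterval NNReal
open Set Function TopologicalSpace

namespace Pool.Agent.TOL

open Pool.Agent.Helper17 Pool.Agent.TOR

/-- uniqueness of integral curves on `[0, 1]` -/
lemma mol_unique {T : Type} [TopologicalSpace T] {E : Type} [NormedAddCommGroup E]
    [NormedSpace ℝ E] {X : T × Icc (0 : ℝ) 1 → E → E} (hX : CF X) {ℓ : ℝ}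
    (hℓ : ∀ p x, ‖fderiv ℝ (X p) x‖ ≤ ℓ) (t : T) {r r' : ℝ → E}
    (h : ∀ s : Icc (0 : ℝ) 1, HasDerivAt r (X (t, s) (r s)) s)
    (h' : ∀ s : Icc (0 : ℝ) 1, HasDerivAt r' (X (t, s) (r' s)) s) (h0 : r 0 = r' 0)
    (s : Icc (0 : ℝ) 1) : r s = r' s := by
  have hL : ∀ s : ℝ, LipschitzWith (Real.toNNReal |ℓ|) (X (t, pr s)) := by
    intro s
    apply LipschitzWith.of_dist_le_mul
    intro x y
    rw [dist_eq_norm, dist_eq_norm, Real.coe_toNNReal _ (abs_nonneg ℓ)]
    exact convex_univ.norm_image_sub_le_of_norm_fderiv_le (𝕜 := ℝ)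
      (fun z _ => hX.differentiable _ z) (fun z _ => (hℓ _ z).trans (le_abs_self ℓ))
      (mem_univ y) (mem_univ x)
  have e : ∀ s (hs : s ∈ Icc (0 : ℝ) 1), pr s = ⟨s, hs⟩ := fun s hs =>
    Subtype.ext (pr_of_mem hs)
  have k1 : ∀ s ∈ Icc (0 : ℝ) 1, HasDerivAt r (X (t, pr s) (r s)) s := by
    intro s hs
    rw [e s hs]
    exact h ⟨s, hs⟩
  have k2 : ∀ s ∈ Icc (0 : ℝ) 1, HasDerivAt r' (X (t, pr s) (r' s)) s := by
    intro s hs
    rw [e s hs]
    exact h' ⟨s, hs⟩
  have h1 : EqOn r r' (Icc 0 1) :=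
    ODE_solution_unique (v := fun s => X (t, pr s)) hL
    (fun s hs => (k1 s hs).continuousAt.continuousWithinAt)
    (fun s hs => (k1 s (Ico_subset_Icc_self hs)).hasDerivWithinAt)
    (fun s hs => (k2 s hs).continuousAt.continuousWithinAt)
    (fun s hs => (k2 s (Ico_subset_Icc_self hs)).hasDerivWithinAt) h0
  exact h1 s.2

lemma mol_isClosed_slab {n N : ℕ} (b : Module.Basis (Fin N) ℝ (Phase n)) (j : ℕ) (R : ℝ) :
    IsClosed (slab b j R) := by
  have : slab b j R = ⋂ i : Fin N, ⋂ _ : j ≤ (i : ℕ), {x | |b.repr x i| ≤ R} := by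
    ext x
    simp [slab]
  rw [this]
  refine isClosed_iInter fun i => isClosed_iInter fun _ => ?_
  have hc : Continuous (fun x => b.repr x i) :=
    LinearMap.continuous_of_finiteDimensional (b.coord i)
  exact isClosed_le hc.abs continuous_const

lemma mol_per_fderiv {n : ℕ} {F : Phase n → Phase n} {v : Phase n}
    (h : ∀ x, F (x + v) = F x + v) (x : Phase n) : fderiv ℝ F (x + v) = fderiv ℝ F x := by
  rw [← fderiv_comp_add_right]
  have h1 : (fun y => F (y + v)) = fun y => F y + v := funext h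
  rw [h1, fderiv_add_const]

lemma mol_per_field {n : ℕ} {T : Type} {Ψ : T → Phase n → Phase n} {v : Phase n}
    (p : T × Icc (0 : ℝ) 1) (h : ∀ x, Ψ p.1 (x + v) = Ψ p.1 x + v) (x : Phase n) :
    moserField Ψ p (x + v) = moserField Ψ p x := by
  have h1 := mol_per_fderiv h x
  have h2 : midForm (Ψ p.1) (x + v) = midForm (Ψ p.1) x := by
    ext w
    rw [midForm_apply, midForm_apply, h1, h x, add_sub_add_right_eq_sub]
  unfold moserField
  rw [h1, h2]

theorem thm_MoserLev : St_MoserLev := by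
  intro n N b j T _ _ R Ψ hΨ
  set X := moserField Ψ with hX
  have hXCF : CF X := CF_moserField hΨ.cf hΨ.adm
  have hX0 : ∀ x ∉ slab b j R, ∀ p, X p x = 0 := fun x hx p =>
    moserField_eq_zero (hΨ.supp p.1 x hx)
  have hXper : ∀ p, ∀ i : Fin N, (i : ℕ) < j → ∀ x, X p (x + b i) = X p x := fun p i hi x =>
    mol_per_field p (hΨ.per p.1 i hi) x
  obtain ⟨C, hC⟩ : ∃ C, ∀ (p : T × Icc (0 : ℝ) 1) (x : Phase n), ‖fderiv ℝ (X p) x‖ ≤ C := by
    obtain ⟨C, hC⟩ := thm_Box b j R (T × Icc (0 : ℝ) 1) (Phase n →L[ℝ] Phase n)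
      (fun q => fderiv ℝ (X q.1) q.2) hXCF.fderiv.continuous (by
        intro p x i hi
        beta_reduce
        rw [← fderiv_comp_add_right]
        have h1 : (fun y => X p (y + b i)) = X p := funext (hXper p i hi)
        rw [h1])
    refine ⟨max C 0, fun p x => ?_⟩
    by_cases hx : x ∈ slab b j R
    · exact (hC p x hx).trans (le_max_left _ _)
    · have h1 : X p =ᶠ[𝓝 x] fun _ => 0 := by
        filter_upwards [(mol_isClosed_slab b j R).isOpen_compl.mem_nhds hx] with y hy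
        exact hX0 y hy p
      rw [h1.fderiv_eq, (hasFDerivAt_const (0 : Phase n) x).fderiv, norm_zero]
      exact le_max_right _ _
  obtain ⟨ρ, hρ, heq, hfix⟩ := exists_flow X hXCF hC
  refine ⟨ρ, hρ, ?_, fun p x hx => hfix x (hX0 x hx) p, ?_, ?_, ?_⟩
  · intro t s x v w
    obtain ⟨r, A, hr, hA, hrd, hAd, hr0, hA0⟩ := flow_ode hXCF hρ heq t x
    have h1 := moser_conservation (hΨ.cf.contDiff t) (X := fun s => X (t, s))
      (fun s => hXCF.differentiable (t, s))
      (fun s y w => moserField_spec hΨ.adm (t, s) y w) hrd hAd hA0 v w s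
    rw [hr, hA] at h1
    exact h1
  · intro t x
    rw [heq]
    simp
  · intro t ht s x
    rw [heq]
    have h1 : ∀ (s : Icc (0 : ℝ) 1) y, X (t, s) y = 0 := fun s y => moserField_eq_zero (ht y)
    simp [h1]
  · rintro ⟨t, s⟩ i hi x
    obtain ⟨r, A, hr, -, hrd, -, hr0, -⟩ := flow_ode hXCF hρ heq t x
    obtain ⟨r', A', hr', -, hrd', -, hr0', -⟩ := flow_ode hXCF hρ heq t (x + b i)
    have h1 := mol_unique hXCF hC t (r := r') (r' := fun s => r s + b i) hrd' (by
      intro s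
      have h2 := (hrd s).add_const (b i)
      have h3 : X (t, s) (r s + b i) = X (t, s) (r s) := hXper (t, s) i hi (r s)
      rw [← h3] at h2
      exact h2) (by rw [hr0', hr0]) s
    rw [← hr' s, h1, hr s]

end Pool.Agent.TOL
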