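import Mathlib
import Pool.Agent.TOL.Stmts
import Pool.Agent.Helper17.AdmComp

set_option maxSynthPendingDepth 3

open scoped ContDiff Distributions Topology unitInterval
open Set Function TopologicalSpace

namespace Pool.Agent.TOL

open Pool.Agent.Helper17 Pool.Agent.TOR

/-- the derivative of the smooth transition is bounded -/
lemma gri_deriv_bound : ∃ C : ℝ, 0 ≤ C ∧ ∀ x, |deriv Real.smoothTransition x| ≤ C := by
  have hS : ContDiff ℝ ∞ Real.smoothTransition := Real.smoothTransition.contDiff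
  have hcont : Continuous (deriv Real.smoothTransition) :=
    hS.continuous_deriv (by simp)
  obtain ⟨C, hC⟩ := (isCompact_Icc (a := (0 : ℝ)) (b := 1)).exists_bound_of_continuousOn
    hcont.continuousOn
  refine ⟨max C 0, le_max_right _ _, fun x => ?_⟩
  by_cases hx : x ∈ Icc (0 : ℝ) 1
  · exact (hC x hx).trans (le_max_left _ _)
  · have h0 : deriv Real.smoothTransition x = 0 := by
      rcases lt_or_ge x 0 with h | h
      · have h1 : Real.smoothTransition =ᶠ[𝓝 x] fun _ => (0 : ℝ) := by
          filter_upwards [Iio_mem_nhds h] with y hy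
          exact Real.smoothTransition.zero_of_nonpos (le_of_lt hy)
        rw [h1.deriv_eq]; simp
      · have h2 : 1 < x := by
          by_contra hcon
          exact hx ⟨h, not_lt.1 hcon⟩
        have h1 : Real.smoothTransition =ᶠ[𝓝 x] fun _ => (1 : ℝ) := by
          filter_upwards [Ioi_mem_nhds h2] with y hy
          exact Real.smoothTransition.one_of_one_le (le_of_lt hy)
        rw [h1.deriv_eq]; simp
    rw [h0, abs_zero]
    exact le_max_right _ _

/-- the weighted telescoping sum is near one of the terms -/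
lemma gri_tele {F : Type*} [NormedAddCommGroup F] [NormedSpace ℝ F] (A : ℕ → F) (η s : ℝ)
    (hη : 0 ≤ η) (M : ℕ) (h : ∀ m < M, ‖A (m + 1) - A m‖ ≤ η) :
    ∃ k ≤ M, ‖A 0 + ∑ m ∈ Finset.range M, Real.smoothTransition (s - m) • (A (m + 1) - A m)
      - A k‖ ≤ η := by
  induction M with
  | zero => exact ⟨0, le_rfl, by simpa using hη⟩
  | succ M ih =>
    rcases le_or_gt s M with hs | hs
    · obtain ⟨k, hk, hk'⟩ := ih fun m hm => h m (by omega)
      refine ⟨k, by omega, ?_⟩
      rw [Finset.sum_range_succ, Real.smoothTransition.zero_of_nonpos (by linarith), zero_smul,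
        add_zero]
      exact hk'
    · refine ⟨M, by omega, ?_⟩
      have h1 : ∑ m ∈ Finset.range M, Real.smoothTransition (s - m) • (A (m + 1) - A m) =
          A M - A 0 := by
        rw [← Finset.sum_range_sub A M]
        refine Finset.sum_congr rfl fun m hm => ?_
        rw [Finset.mem_range] at hm
        have : (m : ℝ) + 1 ≤ M := by exact_mod_cast hm
        rw [Real.smoothTransition.one_of_one_le (by linarith), one_smul]
      rw [Finset.sum_range_succ, h1]
      have h2 : A 0 + (A M - A 0 + Real.smoothTransition (s - M) • (A (M + 1) - A M)) - A M =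
          Real.smoothTransition (s - M) • (A (M + 1) - A M) := by abel
      rw [h2, norm_smul, Real.norm_of_nonneg (Real.smoothTransition.nonneg _)]
      calc Real.smoothTransition (s - M) * ‖A (M + 1) - A M‖ ≤ 1 * η :=
            mul_le_mul (Real.smoothTransition.le_one _) (h M (by omega)) (norm_nonneg _)
              zero_le_one
        _ = η := one_mul _

/-- small perturbations of symplectic matrices are admissible -/
lemma gri_near {n : ℕ} {A D : Phase n →L[ℝ] Phase n} {C e : ℝ}
    (hA : ∀ u v, omegaStd (A u) (A v) = omegaStd u v) (hC : ‖A‖ ≤ C) (he : ‖D - A‖ ≤ e)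
    (hs : 2 * C * e + e ^ 2 < 1) : Admissible D := by
  have hC0 : 0 ≤ C := (norm_nonneg _).trans hC
  have he0 : 0 ≤ e := (norm_nonneg _).trans he
  refine NearL.admissible (θ := 2 * C * e + e ^ 2) (fun v w => ?_) hs
  have hD : ∀ u, D u = A u + (D - A) u := fun u => by
    rw [sub_apply]; abel
  rw [hD v, hD w, omegaStd_add_left, omegaStd_add_right, omegaStd_add_right, hA]
  have h1 : ∀ u, ‖A u‖ ≤ C * ‖u‖ := fun u =>
    (A.le_opNorm u).trans (mul_le_mul_of_nonneg_right hC (norm_nonneg _))
  have h2 : ∀ u, ‖(D - A) u‖ ≤ e * ‖u‖ := fun u =>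
    ((D - A).le_opNorm u).trans (mul_le_mul_of_nonneg_right he (norm_nonneg _))
  have h3 : |omegaStd (A v) ((D - A) w)| ≤ (C * ‖v‖) * (e * ‖w‖) :=
    (abs_omegaStd_le _ _).trans (mul_le_mul (h1 v) (h2 w) (norm_nonneg _) (by positivity))
  have h4 : |omegaStd ((D - A) v) (A w)| ≤ (e * ‖v‖) * (C * ‖w‖) :=
    (abs_omegaStd_le _ _).trans (mul_le_mul (h2 v) (h1 w) (norm_nonneg _) (by positivity))
  have h5 : |omegaStd ((D - A) v) ((D - A) w)| ≤ (e * ‖v‖) * (e * ‖w‖) :=
    (abs_omegaStd_le _ _).trans (mul_le_mul (h2 v) (h2 w) (norm_nonneg _) (by positivity))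
  rw [abs_le] at h3 h4 h5 ⊢
  constructor <;> nlinarith [h3.1, h3.2, h4.1, h4.2, h5.1, h5.2]

/-- derivative of the grid map -/
lemma gri_hasFDerivAt {n N : ℕ} (b : Module.Basis (Fin N) ℝ (Phase n)) (j : Fin N) (M : ℕ)
    (W : I → Phase n → Phase n) (hW : ∀ a, Differentiable ℝ (W a)) (l : Phase n →L[ℝ] ℝ)
    (hl : ∀ x, l x = b.repr x j) (ε L : ℝ) (x : Phase n) :
    HasFDerivAt (fun x => grid M W (ε * (b.repr x j + L)) x)
      (fderiv ℝ (W 0) x + ∑ m ∈ Finset.range M,
        (Real.smoothTransition (M * (ε * (b.repr x j + L)) - m) •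
          (fderiv ℝ (W (pr ((m + 1) / M))) x - fderiv ℝ (W (pr (m / M))) x) +
        ((deriv Real.smoothTransition (M * (ε * (b.repr x j + L)) - m) * (M * ε)) • l).smulRight
          (W (pr ((m + 1) / M)) x - W (pr (m / M)) x))) x := by
  unfold grid
  refine (hW 0 x).hasFDerivAt.add ?_
  refine HasFDerivAt.fun_sum fun m _ => ?_
  refine HasFDerivAt.smul (c := fun x => Real.smoothTransition (M * (ε * (b.repr x j + L)) - m))
    (f := fun x => W (pr ((m + 1) / M)) x - W (pr (m / M)) x) ?_
    ((hW _ x).hasFDerivAt.sub (hW _ x).hasFDerivAt)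
  have h1 : HasFDerivAt (fun x : Phase n => (M : ℝ) * (ε * (b.repr x j + L)) - m)
      ((M * ε) • l) x := by
    have h2 : HasFDerivAt (fun x : Phase n => ((M : ℝ) * ε) * l x) ((M * ε) • l) x :=
      l.hasFDerivAt.const_mul _
    have h3 := h2.add_const (((M : ℝ) * ε) * L - m)
    refine h3.congr_of_eventuallyEq (Filter.Eventually.of_forall fun y => ?_)
    beta_reduce
    rw [hl]; ring
  have hS : ContDiff ℝ ∞ Real.smoothTransition := Real.smoothTransition.contDiff
  have h4 : HasDerivAt Real.smoothTransition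
      (deriv Real.smoothTransition (M * (ε * (b.repr x j + L)) - m))
      (M * (ε * (b.repr x j + L)) - m) :=
    (hS.differentiable (by simp) _).hasDerivAt
  have h5 := h4.comp_hasFDerivAt x h1
  rw [smul_smul] at h5
  exact h5

theorem thm_Grid (hT : St_TameB) : St_Grid := by
  intro n N b j T _ _ R V hV
  obtain ⟨⟨C₁, hC₁⟩, ⟨C₂, hC₂⟩, hunif⟩ := hT b T R V hV
  obtain ⟨CS, hCS0, hCS⟩ := gri_deriv_bound
  have : FiniteDimensional ℝ (Phase n) := Module.Basis.finiteDimensional_of_finite b
  obtain ⟨l, hl⟩ : ∃ l : Phase n →L[ℝ] ℝ, ∀ x, l x = b.repr x j :=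
    ⟨LinearMap.toContinuousLinearMap (b.coord j), fun x => rfl⟩
  -- constants
  set C : ℝ := max C₂ 0 + 1 with hC
  have hC1 : 1 ≤ C := by have := le_max_right C₂ 0; linarith
  set e : ℝ := 1 / (4 * C) with he
  have he0 : 0 < e := by positivity
  have he1 : e ≤ 1 / 4 := by
    rw [he, div_le_div_iff₀ (by positivity) (by norm_num)]
    linarith
  have hCe : 2 * C * e = 1 / 2 := by
    rw [he]; field_simp; norm_num
  have hsmall : 2 * C * e + e ^ 2 < 1 := by
    rw [hCe]; nlinarith
  obtain ⟨d, hd, hd'⟩ := hunif (e / 2) (by positivity)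
  obtain ⟨M0, hM0⟩ := exists_nat_ge (1 / d)
  refine ⟨max M0 1, fun M hM => ?_⟩
  have hM1 : 1 ≤ M := (le_max_right _ _).trans hM
  have hM0M : M0 ≤ M := (le_max_left _ _).trans hM
  have hMR : (1 : ℝ) ≤ M := by exact_mod_cast hM1
  have hMd : 1 / (M : ℝ) ≤ d := by
    have h1 : 1 / d ≤ M := hM0.trans (by exact_mod_cast hM0M)
    rw [div_le_iff₀ hd] at h1
    rw [div_le_iff₀ (by linarith)]
    linarith
  set C₁' : ℝ := max C₁ 0 with hC₁'
  have hC₁0 : 0 ≤ C₁' := le_max_right _ _
  set Q : ℝ := M * (CS * M * ‖l‖ * (2 * C₁')) + 1 with hQ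
  have hQ1 : 1 ≤ Q := by
    have : 0 ≤ (M : ℝ) * (CS * M * ‖l‖ * (2 * C₁')) := by positivity
    linarith
  refine ⟨e / 2 / Q, by positivity, fun ε hε0 hε t L x => ?_⟩
  have hder := gri_hasFDerivAt b j M (fun a => V (t, a)) (fun a => hV.cf.differentiable (t, a))
    l hl ε L x
  rw [hder.fderiv]
  set s : ℝ := M * (ε * (b.repr x j + L)) with hs
  -- the values of the derivatives on the grid
  have hstep : ∀ m < M, ‖fderiv ℝ (V (t, pr ((m + 1 : ℕ) / M))) x -
      fderiv ℝ (V (t, pr (m / M))) x‖ ≤ e / 2 := by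
    intro m hm
    refine hd' t _ _ x ?_
    have h1 : (m : ℝ) + 1 ≤ M := by exact_mod_cast hm
    have hMpos : (0 : ℝ) < M := by linarith
    have e1 : ((pr ((m + 1 : ℕ) / M) : Icc (0 : ℝ) 1) : ℝ) = ((m + 1 : ℕ) : ℝ) / M := by
      unfold pr
      rw [projIcc_of_mem zero_le_one ⟨by positivity, by
        rw [div_le_one hMpos]; push_cast; exact h1⟩]
    have e2 : ((pr (m / M) : Icc (0 : ℝ) 1) : ℝ) = (m : ℝ) / M := by
      unfold pr
      rw [projIcc_of_mem zero_le_one ⟨by positivity, by
        rw [div_le_one hMpos]; linarith⟩]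
    rw [e1, e2, ← sub_div]
    have e3 : (((m + 1 : ℕ) : ℝ) - m) / M = 1 / M := by push_cast; congr 1; ring
    rw [e3, abs_of_nonneg (by positivity)]
    exact hMd
  obtain ⟨k, hk, hk'⟩ := gri_tele (fun m : ℕ => fderiv ℝ (V (t, pr (m / M))) x) (e / 2) s
    (by positivity) M hstep
  beta_reduce at hk'
  have hpr0 : pr (((0 : ℕ) : ℝ) / M) = (0 : I) := by
    rw [Nat.cast_zero, zero_div]
    unfold pr
    exact projIcc_left (α := ℝ) (a := 0) (b := 1) (h := zero_le_one)
  rw [hpr0] at hk'
  refine gri_near (A := fderiv ℝ (V (t, pr (k / M))) x) (C := C) (e := e)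
    (fun u v => hV.symp _ x u v) ?_ ?_ hsmall
  · exact (hC₂ _ _).trans ((le_max_left _ _).trans (by linarith))
  · rw [Finset.sum_add_distrib]
    have e4 : ∀ m ∈ Finset.range M, Real.smoothTransition (s - m) •
        (fderiv ℝ (V (t, pr ((m + 1) / M))) x - fderiv ℝ (V (t, pr (m / M))) x) =
        Real.smoothTransition (s - m) •
        (fderiv ℝ (V (t, pr (((m + 1 : ℕ) : ℝ) / M))) x - fderiv ℝ (V (t, pr (m / M))) x) := by
      intro m _
      push_cast
      rfl
    rw [Finset.sum_congr rfl e4]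
    have hrest : ‖∑ m ∈ Finset.range M,
        ((deriv Real.smoothTransition (s - m) * (M * ε)) • l).smulRight
          (V (t, pr ((m + 1) / M)) x - V (t, pr (m / M)) x)‖ ≤ e / 2 := by
      have hterm : ∀ m ∈ Finset.range M,
          ‖((deriv Real.smoothTransition (s - m) * (M * ε)) • l).smulRight
          (V (t, pr ((m + 1) / M)) x - V (t, pr (m / M)) x)‖ ≤
          (CS * M * ‖l‖ * (2 * C₁')) * ε := by
        intro m _
        rw [ContinuousLinearMap.norm_smulRight_apply, norm_smul]
        have h1 : ‖deriv Real.smoothTransition (s - m) * (M * ε)‖ ≤ CS * (M * ε) := by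
          rw [norm_mul, Real.norm_of_nonneg (by positivity : (0 : ℝ) ≤ M * ε)]
          exact mul_le_mul_of_nonneg_right (hCS _) (by positivity)
        have h2 : ‖V (t, pr ((m + 1) / M)) x - V (t, pr (m / M)) x‖ ≤ 2 * C₁' := by
          have e5 : V (t, pr ((m + 1) / M)) x - V (t, pr (m / M)) x =
              (V (t, pr ((m + 1) / M)) x - x) - (V (t, pr (m / M)) x - x) := by abel
          rw [e5]
          refine (norm_sub_le _ _).trans ?_
          have a1 := (hC₁ (t, pr ((m + 1) / M)) x).trans (le_max_left C₁ 0)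
          have a2 := (hC₁ (t, pr (m / M)) x).trans (le_max_left C₁ 0)
          linarith
        calc ‖deriv Real.smoothTransition (s - m) * (M * ε)‖ * ‖l‖ *
              ‖V (t, pr ((m + 1) / M)) x - V (t, pr (m / M)) x‖
            ≤ (CS * (M * ε)) * ‖l‖ * (2 * C₁') := by
              refine mul_le_mul (mul_le_mul_of_nonneg_right h1 (norm_nonneg _)) h2
                (norm_nonneg _) (by positivity)
          _ = (CS * M * ‖l‖ * (2 * C₁')) * ε := by ring
      refine (norm_sum_le _ _).trans ((Finset.sum_le_sum hterm).trans ?_)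
      rw [Finset.sum_const, Finset.card_range, nsmul_eq_mul]
      have h3 : (M : ℝ) * ((CS * M * ‖l‖ * (2 * C₁')) * ε) ≤ Q * ε := by
        rw [hQ]; nlinarith
      refine h3.trans ?_
      calc Q * ε ≤ Q * (e / 2 / Q) := mul_le_mul_of_nonneg_left hε (by linarith)
        _ = e / 2 := by field_simp
    have e6 : ∀ (a p q c : Phase n →L[ℝ] Phase n), a + (p + q) - c = (a + p - c) + q := by
      intro a p q c; abel
    rw [e6]
    refine (norm_add_le _ _).trans ?_
    linarith

end Pool.Agent.TOL
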