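import Mathlib
import Pool.Agent.TOL.Stmts
import Pool.Agent.H27.Torus.Bounded

set_option maxSynthPendingDepth 3

open scoped ContDiff Distributions Topology unitInterval
open Set Function TopologicalSpace

namespace Pool.Agent.TOL

open Pool.Agent.Helper17 Pool.Agent.TOR

lemma tam_fderiv_add {n : ℕ} {F : Phase n → Phase n} (v x : Phase n)
    (h : ∀ᶠ y in 𝓝 x, F (y + v) - (y + v) = F y - y) :
    fderiv ℝ F (x + v) = fderiv ℝ F x := by
  rw [← fderiv_comp_add_right]
  have h1 : (fun y => F (y + v)) =ᶠ[𝓝 x] fun y => F y + v := by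
    filter_upwards [h] with y hy
    have : F (y + v) = F y - y + (y + v) := by rw [← hy]; abel
    rw [this]; abel
  rw [h1.fderiv_eq, fderiv_add_const]

lemma tam_inv {n N : ℕ} {b : Module.Basis (Fin N) ℝ (Phase n)} {T : Type} {R : ℝ}
    {V : T → Phase n → Phase n} (h : H27.Torus.InvOutside b R (fun t x => V t x - x)) :
    H27.Torus.InvOutside b (R + 1) (fun t x => fderiv ℝ (V t) x) := by
  have hc : ∀ i, Continuous (b.coord i) := fun i =>
    LinearMap.continuous_of_finiteDimensional (b.coord i)
  refine ⟨fun i t x hx => ?_, fun i t x hx => ?_⟩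
  · refine tam_fderiv_add (b i) x ?_
    have h1 : ∀ᶠ y in 𝓝 x, R < b.coord i y :=
      (hc i).continuousAt.eventually_const_lt (by linarith)
    filter_upwards [h1] with y hy
    exact h.1 i t y hy.le
  · have h2 : x - b i = x + (-b i) := sub_eq_add_neg _ _
    show fderiv ℝ (V t) (x - b i) = fderiv ℝ (V t) x
    rw [h2]
    refine tam_fderiv_add (-b i) x ?_
    have h1 : ∀ᶠ y in 𝓝 x, b.coord i y < -R :=
      (hc i).continuousAt.eventually_lt_const (by linarith)
    filter_upwards [h1] with y hy
    have := h.2 i t y hy.le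
    rw [sub_eq_add_neg y (b i)] at this
    exact this

theorem thm_TameB : St_TameB := by
  intro n N b T _ _ R V hV
  have hfd : CF (fun p x => fderiv ℝ (V p) x) := hV.cf.fderiv
  have hinv' := tam_inv hV.inv
  refine ⟨hV.inv.bounded (hV.cf.continuous.sub continuous_snd), hinv'.bounded hfd.continuous,
    fun η hη => ?_⟩
  have : FiniteDimensional ℝ (Phase n) := Module.Basis.finiteDimensional_of_finite b
  -- the compact box
  set B : Set (Fin N → ℝ) := Set.pi univ fun _ => Icc (-(|R + 1| + 1)) (|R + 1| + 1) with hB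
  have hBc : IsCompact B := isCompact_univ_pi fun _ => isCompact_Icc
  set L := b.equivFun.toContinuousLinearEquiv with hL
  have hKc : IsCompact ((fun c : Fin N → ℝ => L.symm c) '' B) := hBc.image L.symm.continuous
  set K : Set (Phase n) := (fun c : Fin N → ℝ => L.symm c) '' B with hK
  have : CompactSpace K := isCompact_iff_compactSpace.mp hKc
  let f : C(I × (T × K), Phase n →L[ℝ] Phase n) :=
    ⟨fun q => fderiv ℝ (V (q.2.1, q.1)) (q.2.2 : Phase n), by
      have h1 := hfd.continuous
      exact h1.comp (f := fun q : I × (T × K) => ((q.2.1, q.1), (q.2.2 : Phase n)))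
        (((continuous_fst.comp continuous_snd).prodMk continuous_fst).prodMk
          (continuous_subtype_val.comp (continuous_snd.comp continuous_snd)))⟩
  have hu : UniformContinuous f.curry :=
    CompactSpace.uniformContinuous_of_continuous f.curry.continuous
  obtain ⟨d, hd, hd'⟩ := Metric.uniformContinuous_iff.1 hu η hη
  refine ⟨d / 2, by linarith, fun t a a' x haa => ?_⟩
  obtain ⟨y, -, hy2, hy3⟩ := hinv'.reduce Finset.univ x
  have hyK : y ∈ K := by
    refine ⟨L y, ?_, L.symm_apply_apply y⟩
    intro j _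
    have := hy2 j (Finset.mem_univ j)
    rw [abs_le] at this
    exact this
  rw [show fderiv ℝ (V (t, a)) x = fderiv ℝ (V (t, a)) y from hy3 (t, a),
    show fderiv ℝ (V (t, a')) x = fderiv ℝ (V (t, a')) y from hy3 (t, a')]
  have h1 : dist (f.curry a) (f.curry a') < η := by
    refine hd' ?_
    rw [Subtype.dist_eq, Real.dist_eq]
    linarith
  have h2 := ContinuousMap.dist_apply_le_dist (f := f.curry a) (g := f.curry a') (t, (⟨y, hyK⟩ : K))
  rw [dist_eq_norm] at h2
  exact h2.trans h1.le

end Pool.Agent.TOL
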