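import Mathlib
import Pool.Agent.TOL.Stmts
import Pool.Agent.TOR.Assemble
import Pool.Agent.TOR.CutFlow

set_option maxSynthPendingDepth 3

open scoped ContDiff Distributions Topology unitInterval
open Set Function TopologicalSpace Filter

namespace Pool.Agent.TOL

open Pool.Agent.Helper17 Pool.Agent.TOR

section trunc

variable {n N : ℕ} (b : Module.Basis (Fin N) ℝ (Phase n)) (j : Fin N)

/-- The truncation of `F`. -/
noncomputable def tru_trc (δ : ℝ) (F : Phase n → Phase n) (x : Phase n) : Phase n :=
  x + sig δ (b.repr x j) • (F x - x)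

variable {b j}

lemma tru_left {δ : ℝ} (hδ : 0 < δ) {F : Phase n → Phase n}
    (hF : ∀ x, |b.repr x j| < δ → F x = x) {x : Phase n} (hx : b.repr x j < δ) :
    tru_trc b j δ F x = F x := by
  unfold tru_trc
  rcases le_or_gt (b.repr x j) (-δ) with h | h
  · rw [sig_one hδ h, one_smul, add_sub_cancel]
  · rw [hF x (abs_lt.2 ⟨h, hx⟩), sub_self, smul_zero, add_zero]

lemma tru_right {δ : ℝ} (hδ : 0 < δ) {F : Phase n → Phase n}
    (hF : ∀ x, |b.repr x j| < δ → F x = x) {x : Phase n} (hx : -δ < b.repr x j) :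
    tru_trc b j δ F x = x := by
  unfold tru_trc
  rcases le_or_gt δ (b.repr x j) with h | h
  · rw [sig_zero hδ h, zero_smul, add_zero]
  · rw [hF x (abs_lt.2 ⟨hx, h⟩), sub_self, smul_zero, add_zero]

lemma tru_symp {δ : ℝ} (hδ : 0 < δ) {F : Phase n → Phase n}
    (hF : ∀ x, |b.repr x j| < δ → F x = x)
    (hS : ∀ x u v, omegaStd (fderiv ℝ F x u) (fderiv ℝ F x v) = omegaStd u v)
    (x u v : Phase n) :
    omegaStd (fderiv ℝ (tru_trc b j δ F) x u) (fderiv ℝ (tru_trc b j δ F) x v) =
      omegaStd u v := by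
  rcases lt_or_ge (b.repr x j) δ with h | h
  · have ho : IsOpen {z : Phase n | b.repr z j < δ} :=
      isOpen_lt (cut_flow_repr_cont b j) continuous_const
    have h1 : tru_trc b j δ F =ᶠ[𝓝 x] F := by
      filter_upwards [ho.mem_nhds h] with z hz
      exact tru_left hδ hF hz
    rw [h1.fderiv_eq]
    exact hS x u v
  · have ho : IsOpen {z : Phase n | -δ < b.repr z j} :=
      isOpen_lt continuous_const (cut_flow_repr_cont b j)
    have h1 : tru_trc b j δ F =ᶠ[𝓝 x] fun z => z := by
      filter_upwards [ho.mem_nhds (show -δ < b.repr x j by linarith)] with z hz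
      exact tru_right hδ hF hz
    rw [h1.fderiv_eq, fderiv_fun_id]
    rfl

lemma tru_CF {T : Type} [TopologicalSpace T] {δ : ℝ} {F : T → Phase n → Phase n} (hF : CF F) :
    CF (fun t => tru_trc b j δ (F t)) := by
  unfold tru_trc
  have hid : CF (fun (_ : T) (x : Phase n) => x) := CF.const contDiff_id
  apply CF.add hid
  apply CF.smul _ (hF.sub hid)
  have hc : ContDiff ℝ ∞ (fun x : Phase n => b.repr x j) := by
    have h1 : ContDiff ℝ ∞ (fun x : Phase n =>
        (LinearMap.toContinuousLinearMap (b.coord j)) x) :=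
      ContinuousLinearMap.contDiff _
    exact h1
  exact CF.const ((contDiff_sig δ).comp hc)

lemma tru_zsmul {F : Phase n → Phase n} {v : Phase n} (h : ∀ x, F (x + v) = F x + v) (k : ℤ) :
    ∀ x, F (x + (k : ℝ) • v) = F x + (k : ℝ) • v := by
  induction k using Int.induction_on with
  | zero => intro x; simp
  | succ i ih =>
    intro x
    have h1 : x + (((i : ℤ) + 1 : ℤ) : ℝ) • v = (x + ((i : ℤ) : ℝ) • v) + v := by
      push_cast
      rw [add_smul, one_smul, add_assoc]
    rw [h1, h, ih]
    push_cast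
    rw [add_smul, one_smul, add_assoc]
  | pred i ih =>
    intro x
    have h1 : (x + ((-(i : ℤ) - 1 : ℤ) : ℝ) • v) + v = x + ((-(i : ℤ) : ℤ) : ℝ) • v := by
      push_cast
      rw [sub_smul, one_smul]
      abel
    have h2 := h (x + ((-(i : ℤ) - 1 : ℤ) : ℝ) • v)
    rw [h1, ih] at h2
    have h3 : F (x + ((-(i : ℤ) - 1 : ℤ) : ℝ) • v) =
        F x + ((-(i : ℤ) : ℤ) : ℝ) • v - v := by
      rw [h2]; abel
    rw [h3]
    push_cast
    rw [sub_smul, one_smul]
    abel

section per

variable {T : Type} [TopologicalSpace T] {T0 : Set T} {δ R : ℝ} {g P : T → Equiv.Perm (Phase n)}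

lemma tru_strip (h : Per1 b j δ R T0 g P) (t : T) (x : Phase n) :
    P t x = g t (x - (⌊b.repr x j⌋ : ℝ) • b j) + (⌊b.repr x j⌋ : ℝ) • b j := by
  have h1 := tru_zsmul (F := P t) (v := b j)
    (fun x => h.levP.per t j (Nat.lt_succ_self _) x) ⌊b.repr x j⌋
    (x - (⌊b.repr x j⌋ : ℝ) • b j)
  rw [sub_add_cancel] at h1
  rw [h1]
  have h2 : b.repr (x - (⌊b.repr x j⌋ : ℝ) • b j) j = b.repr x j - ⌊b.repr x j⌋ := by
    rw [cut_flow_repr_sub, if_pos rfl, mul_one]
  rw [h.eq t]
  · rw [h2]
    linarith [Int.floor_le (b.repr x j)]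
  · rw [h2]
    linarith [Int.lt_floor_add_one (b.repr x j)]

lemma tru_fix (hδ : 0 < δ) (hδ' : δ ≤ 1 / 2) (h : Per1 b j δ R T0 g P) (t : T) (x : Phase n)
    (hx : |b.repr x j| < δ) : P t x = x := by
  rw [abs_lt] at hx
  rcases le_or_gt 0 (b.repr x j) with h0 | h0
  · rw [h.eq t x h0 (by linarith)]
    by_contra hne
    linarith [(h.margin t x hne).1]
  · have h1 : b.repr (x + b j) j = b.repr x j + 1 := by
      have := cut_flow_repr_add b x 1 j j
      rwa [one_smul, if_pos rfl, mul_one] at this
    have h2 : P t (x + b j) = x + b j := by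
      rw [h.eq t _ (by rw [h1]; linarith) (by rw [h1]; linarith)]
      by_contra hne
      have := (h.margin t _ hne).2
      rw [h1] at this
      linarith
    rw [h.levP.per t j (Nat.lt_succ_self _) x] at h2
    exact add_right_cancel h2

lemma tru_fix' (hδ : 0 < δ) (hδ' : δ ≤ 1 / 2) (h : Per1 b j δ R T0 g P) (t : T) (x : Phase n)
    (hx : |b.repr x j| < δ) : (P t).symm x = x := by
  rw [Equiv.symm_apply_eq]
  exact (tru_fix hδ hδ' h t x hx).symm

lemma tru_pos (hδ : 0 < δ) (h : Per1 b j δ R T0 g P) (t : T) (y : Phase n)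
    (hy : 0 < b.repr y j) : 0 < b.repr (P t y) j := by
  have hk : 0 ≤ ⌊b.repr y j⌋ := Int.floor_nonneg.2 hy.le
  set z := y - (⌊b.repr y j⌋ : ℝ) • b j with hz
  have hz1 : b.repr z j = b.repr y j - ⌊b.repr y j⌋ := by
    rw [hz, cut_flow_repr_sub, if_pos rfl, mul_one]
  have h1 : b.repr (P t y) j = b.repr (g t z) j + ⌊b.repr y j⌋ := by
    rw [tru_strip h t y, cut_flow_repr_add, if_pos rfl, mul_one]
  have hk' : (0 : ℝ) ≤ ⌊b.repr y j⌋ := by exact_mod_cast hk
  rw [h1]
  by_cases hg : g t z = z
  · rw [hg, hz1]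
    linarith
  · have h2 : g t (g t z) ≠ g t z := fun h' => hg ((g t).injective h')
    linarith [(h.margin t _ h2).1]

lemma tru_neg (hδ : 0 < δ) (h : Per1 b j δ R T0 g P) (t : T) (x : Phase n)
    (hx : b.repr x j ≤ 0) : b.repr ((P t).symm x) j ≤ 0 := by
  by_contra hc
  have h1 := tru_pos hδ h t _ (not_le.1 hc)
  rw [Equiv.apply_symm_apply] at h1
  linarith

end per

end trunc

theorem thm_Trunc : St_Trunc := by
  intro n N b j T _ T0 δ R g P hδ hδ' h
  have hper : ∀ t, ∀ i : Fin N, (i : ℕ) < (j : ℕ) + 1 → ∀ x, P t (x + b i) = P t x + b i :=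
    h.levP.per
  have hper' : ∀ t, ∀ i : Fin N, (i : ℕ) < (j : ℕ) + 1 → ∀ x,
      (P t).symm (x + b i) = (P t).symm x + b i := fun t i hi x =>
    cut_flow_symm_add (hper t i hi) x
  have hfix := tru_fix hδ hδ' h
  have hfix' := tru_fix' hδ hδ' h
  have hsupp : ∀ t, ∀ i : Fin N, (j : ℕ) < (i : ℕ) → ∀ x, R < |b.repr x i| → P t x = x := by
    intro t i hi x hx
    apply h.levP.supp t x
    intro hs
    exact absurd (hs i hi) (not_le.2 hx)
  have hsupp' : ∀ t, ∀ i : Fin N, (j : ℕ) < (i : ℕ) → ∀ x, R < |b.repr x i| →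
      (P t).symm x = x := by
    intro t i hi x hx
    rw [Equiv.symm_apply_eq]
    exact (hsupp t i hi x hx).symm
  have htr0 : ∀ (F : Phase n → Phase n) x, F x = x → tru_trc b j δ F x = x := by
    intro F x hx
    unfold tru_trc
    rw [hx, sub_self, smul_zero, add_zero]
  have hP1 : ∀ t x, b.repr x j < δ → tru_trc b j δ (P t) x = P t x := fun t x hx =>
    tru_left hδ (hfix t) hx
  have hP2 : ∀ t x, -δ < b.repr x j → tru_trc b j δ (P t) x = x := fun t x hx =>
    tru_right hδ (hfix t) hx
  have hQ1 : ∀ t x, b.repr x j < δ → tru_trc b j δ (P t).symm x = (P t).symm x := fun t x hx =>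
    tru_left hδ (hfix' t) hx
  have hQ2 : ∀ t x, -δ < b.repr x j → tru_trc b j δ (P t).symm x = x := fun t x hx =>
    tru_right hδ (hfix' t) hx
  set V : T × I → Phase n → Phase n := fun p x =>
    tru_trc b j δ (P p.1) (tru_trc b j δ (P p.1).symm x - (p.2 : ℝ) • b j) +
      (p.2 : ℝ) • b j with hV
  have hleft : ∀ t (a : I) x, b.repr x j ≤ 0 →
      V (t, a) x = P t ((P t).symm x - (a : ℝ) • b j) + (a : ℝ) • b j := by
    intro t a x hx
    simp only [hV]
    rw [hQ1 t x (by linarith), hP1]
    rw [cut_flow_repr_sub, if_pos rfl, mul_one]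
    linarith [tru_neg hδ h t x hx, a.2.1]
  have hright : ∀ t (a : I) x, 1 ≤ b.repr x j → V (t, a) x = x := by
    intro t a x hx
    simp only [hV]
    rw [hQ2 t x (by linarith), hP2, sub_add_cancel]
    rw [cut_flow_repr_sub, if_pos rfl, mul_one]
    linarith [a.2.2]
  have hVper : ∀ p, ∀ i : Fin N, (i : ℕ) < (j : ℕ) → ∀ x, V p (x + b i) = V p x + b i := by
    intro p i hi x
    have hne : i ≠ j := by
      intro he; rw [he] at hi; exact lt_irrefl _ hi
    have hrep : ∀ y : Phase n, b.repr (y + b i) j = b.repr y j := by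
      intro y
      have := cut_flow_repr_add b y 1 i j
      rw [one_smul, if_neg hne] at this
      rw [this]; ring
    have htr : ∀ F : Phase n → Phase n, (∀ x, F (x + b i) = F x + b i) →
        ∀ y, tru_trc b j δ F (y + b i) = tru_trc b j δ F y + b i := by
      intro F hF y
      unfold tru_trc
      rw [hrep, hF]
      have : F y + b i - (y + b i) = F y - y := by abel
      rw [this]
      abel
    simp only [hV]
    rw [htr _ (hper' p.1 i (by omega))]
    have h1 : tru_trc b j δ (P p.1).symm x + b i - (p.2 : ℝ) • b j =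
        (tru_trc b j δ (P p.1).symm x - (p.2 : ℝ) • b j) + b i := by abel
    rw [h1, htr _ (hper p.1 i (by omega))]
    abel
  have hVsupp : ∀ p, ∀ i : Fin N, (j : ℕ) < (i : ℕ) → ∀ x, R < |b.repr x i| → V p x = x := by
    intro p i hi x hx
    have hne : j ≠ i := by
      intro he; rw [he] at hi; exact lt_irrefl _ hi
    simp only [hV]
    rw [htr0 _ x (hsupp' p.1 i hi x hx), htr0, sub_add_cancel]
    apply hsupp p.1 i hi
    rw [cut_flow_repr_sub, if_neg hne, mul_zero, sub_zero]
    exact hx
  have hcf : CF V := by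
    have h1 : CF (fun (p : T × I) => tru_trc b j δ (P p.1)) :=
      (tru_CF (b := b) (j := j) (δ := δ) h.levP.cf).base continuous_fst
    have h2 : CF (fun (p : T × I) => tru_trc b j δ (P p.1).symm) :=
      (tru_CF (b := b) (j := j) (δ := δ) h.levP.cf').base continuous_fst
    have h3 : CF (fun (p : T × I) (_ : Phase n) => (p.2 : ℝ) • b j) :=
      CF.param ((continuous_subtype_val.comp continuous_snd).smul continuous_const)
    exact (CF.comp h1 (h2.sub h3)).add h3
  have hdP : ∀ t, Differentiable ℝ (tru_trc b j δ (P t)) := fun t =>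
    (tru_CF (b := b) (j := j) (δ := δ) h.levP.cf).differentiable t
  have hdQ : ∀ t, Differentiable ℝ (tru_trc b j δ (P t).symm) := fun t =>
    (tru_CF (b := b) (j := j) (δ := δ) h.levP.cf').differentiable t
  have hsymQ : ∀ t x u v, omegaStd (fderiv ℝ (P t).symm x u) (fderiv ℝ (P t).symm x v) =
      omegaStd u v := by
    intro t x u v
    have hd1 : Differentiable ℝ (P t) := h.levP.cf.differentiable t
    have hd2 : Differentiable ℝ (P t).symm := h.levP.cf'.differentiable t
    have h1 : fderiv ℝ (fun y => P t ((P t).symm y)) x =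
        (fderiv ℝ (P t) ((P t).symm x)).comp (fderiv ℝ (P t).symm x) :=
      fderiv_comp x (hd1 _) (hd2 _)
    have h2 : (fun y => P t ((P t).symm y)) = fun y => y := funext fun y =>
      Equiv.apply_symm_apply _ _
    rw [h2, fderiv_fun_id] at h1
    have h3 : ∀ w, fderiv ℝ (P t) ((P t).symm x) (fderiv ℝ (P t).symm x w) = w := by
      intro w
      have := congrArg (fun L : Phase n →L[ℝ] Phase n => L w) h1
      exact this.symm
    have h4 := h.levP.symp t ((P t).symm x) (fderiv ℝ (P t).symm x u) (fderiv ℝ (P t).symm x v)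
    rw [h3, h3] at h4
    exact h4.symm
  have hVsymp : ∀ p x u v, omegaStd (fderiv ℝ (V p) x u) (fderiv ℝ (V p) x v) =
      omegaStd u v := by
    intro p x u v
    have h1 : HasFDerivAt (fun x => tru_trc b j δ (P p.1).symm x - (p.2 : ℝ) • b j)
        (fderiv ℝ (tru_trc b j δ (P p.1).symm) x) x :=
      ((hdQ p.1 x).hasFDerivAt).sub_const _
    have h2 := (hdP p.1 (tru_trc b j δ (P p.1).symm x - (p.2 : ℝ) • b j)).hasFDerivAt
    have h3 := (h2.comp x h1).add_const ((p.2 : ℝ) • b j)
    have h4 : fderiv ℝ (V p) x = (fderiv ℝ (tru_trc b j δ (P p.1))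
        (tru_trc b j δ (P p.1).symm x - (p.2 : ℝ) • b j)).comp
          (fderiv ℝ (tru_trc b j δ (P p.1).symm) x) := h3.fderiv
    rw [h4]
    change omegaStd ((fderiv ℝ (tru_trc b j δ (P p.1)) _)
      (fderiv ℝ (tru_trc b j δ (P p.1).symm) x u)) ((fderiv ℝ (tru_trc b j δ (P p.1)) _)
      (fderiv ℝ (tru_trc b j δ (P p.1).symm) x v)) = _
    rw [tru_symp hδ (hfix p.1) (h.levP.symp p.1), tru_symp hδ (hfix' p.1) (hsymQ p.1)]
  refine ⟨|R| + 1, V, ⟨⟨hcf, hVsymp, ?_, ?_⟩, ?_, ?_, ?_, ?_, hVper, ?_, ?_⟩⟩
  · -- translation invariance on the right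
    intro i p x hx
    rw [Module.Basis.coord_apply] at hx
    have hR := le_abs_self R
    have hR0 := abs_nonneg R
    have hadd : b.repr (x + b i) i = b.repr x i + 1 := by
      have := cut_flow_repr_add b x 1 i i
      rwa [one_smul, if_pos rfl, mul_one] at this
    rcases lt_trichotomy (i : ℕ) (j : ℕ) with hij | hij | hij
    · change V p (x + b i) - (x + b i) = V p x - x
      rw [hVper p i hij]; abel
    · have hij' : i = j := Fin.ext hij
      subst hij'
      change V (p.1, p.2) (x + b i) - (x + b i) = V (p.1, p.2) x - x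
      rw [hright p.1 p.2 x (by linarith), hright p.1 p.2 (x + b i) (by rw [hadd]; linarith),
        sub_self, sub_self]
    · change V p (x + b i) - (x + b i) = V p x - x
      rw [hVsupp p i hij x (by rw [lt_abs]; left; linarith),
        hVsupp p i hij (x + b i) (by rw [hadd, lt_abs]; left; linarith), sub_self, sub_self]
  · intro i p x hx
    rw [Module.Basis.coord_apply] at hx
    have hR := le_abs_self R
    have hR0 := abs_nonneg R
    have hadd : b.repr (x - b i) i = b.repr x i - 1 := by
      have := cut_flow_repr_sub b x 1 i i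
      rwa [one_smul, if_pos rfl, mul_one] at this
    rcases lt_trichotomy (i : ℕ) (j : ℕ) with hij | hij | hij
    · change V p (x - b i) - (x - b i) = V p x - x
      have h1 := hVper p i hij (x - b i)
      rw [sub_add_cancel] at h1
      rw [h1]; abel
    · have hij' : i = j := Fin.ext hij
      subst hij'
      change V (p.1, p.2) (x - b i) - (x - b i) = V (p.1, p.2) x - x
      rw [hleft p.1 p.2 x (by linarith), hleft p.1 p.2 (x - b i) (by rw [hadd]; linarith)]
      have h1 := hper' p.1 i (Nat.lt_succ_self _) (x - b i)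
      rw [sub_add_cancel] at h1
      have h2 := hper p.1 i (Nat.lt_succ_self _)
        ((P p.1).symm (x - b i) - (p.2 : ℝ) • b i)
      have h3 : (P p.1).symm (x - b i) - (p.2 : ℝ) • b i + b i =
          (P p.1).symm x - (p.2 : ℝ) • b i := by
        rw [h1]; abel
      rw [h3] at h2
      rw [h2]
      abel
    · change V p (x - b i) - (x - b i) = V p x - x
      rw [hVsupp p i hij x (by rw [lt_abs]; right; linarith),
        hVsupp p i hij (x - b i) (by rw [hadd, lt_abs]; right; linarith), sub_self, sub_self]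
  · -- zero
    intro t x
    rcases le_or_gt (b.repr x j) 0 with hx | hx
    · rw [hleft t 0 x hx]
      simp
    · simp only [hV]
      rw [hQ2 t x (by linarith)]
      simp only [Set.Icc.coe_zero, zero_smul, sub_zero, add_zero]
      exact hP2 t x (by linarith)
  · -- one
    intro t x
    rcases le_or_gt (b.repr x j) 0 with hx | hx
    · rw [hleft t 1 x hx]
      have h1 := hper t j (Nat.lt_succ_self _) ((P t).symm x - b j)
      rw [sub_add_cancel, Equiv.apply_symm_apply] at h1
      simp only [Set.Icc.coe_one, one_smul]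
      rw [← h1]
      by_contra hne
      linarith [(h.margin t x (fun h' => hne h'.symm)).1]
    · rcases le_or_gt (b.repr x j) 1 with hx1 | hx1
      · simp only [hV]
        rw [hQ2 t x (by linarith), hP1]
        · simp only [Set.Icc.coe_one, one_smul]
          have h1 := hper t j (Nat.lt_succ_self _) (x - b j)
          rw [sub_add_cancel] at h1
          rw [← h1, h.eq t x hx.le hx1]
        · rw [cut_flow_repr_sub, if_pos rfl, mul_one]
          simp only [Set.Icc.coe_one]
          linarith
      · rw [hright t 1 x hx1.le]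
        by_contra hne
        linarith [(h.margin t x (fun h' => hne h'.symm)).2]
  · -- left
    intro t a x hx
    rw [hleft t a x hx, cm_apply]
  · exact hright
  · intro p i hi x hx
    apply hVsupp p i hi x
    linarith [le_abs_self R]
  · -- rel
    intro t ht a x
    have hid : ∀ y, P t y = y := by
      intro y
      rw [tru_strip h t y, h.rel t ht]
      simp
    have hid' : ∀ y, (P t).symm y = y := by
      intro y
      rw [Equiv.symm_apply_eq, hid]
    simp only [hV]
    rw [htr0 _ x (hid' x), htr0 _ _ (hid _), sub_add_cancel]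

end Pool.Agent.TOL
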