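import Mathlib
import Pool.Agent.TOL.Stmts
import Pool.Agent.TOR.Dil

set_option maxSynthPendingDepth 3

open scoped ContDiff Distributions Topology unitInterval
open Set Function TopologicalSpace

namespace Pool.Agent.TOL

open Pool.Agent.Helper17 Pool.Agent.TOR

/-- The conjugate of the identity by a dilation is the identity. -/
lemma dir_map_id {n : ℕ} (c : Phase n) (s : ℝ) (hs : s ≠ 0) :
    dil_map c s hs (1 : SympCt n) = 1 := by
  apply SympCt.ext'
  intro x
  rw [dil_map_apply]
  change s • ((s⁻¹ • (x - c) + c) - c) + c = x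
  rw [add_sub_cancel_right, smul_smul, mul_inv_cancel₀ hs, one_smul, sub_add_cancel]

theorem thm_DilRel : St_DilRel := by
  intro n K hK hint T _ _ T0
  obtain ⟨c, hc⟩ := hint
  obtain ⟨ρ, hρ, hball⟩ := Metric.mem_nhds_iff.1 (mem_interior_iff_mem_nhds.1 hc)
  have hcK : c ∈ K := interior_subset hc
  -- the small factor
  have hfac : ∀ N : ℕ, ∃ s : ℝ, 0 < s ∧ s ≤ 1 ∧ s * (N + ‖c‖ + 1) ≤ ρ := by
    intro N
    have h1 : 0 < (N : ℝ) + ‖c‖ + 1 := by positivity
    refine ⟨min 1 (ρ / (N + ‖c‖ + 1)), lt_min one_pos (div_pos hρ h1), min_le_left _ _, ?_⟩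
    calc min 1 (ρ / (N + ‖c‖ + 1)) * (N + ‖c‖ + 1)
        ≤ (ρ / (N + ‖c‖ + 1)) * (N + ‖c‖ + 1) :=
          mul_le_mul_of_nonneg_right (min_le_right _ _) h1.le
      _ = ρ := div_mul_cancel₀ _ h1.ne'
  constructor
  · intro f hf0
    obtain ⟨N, hN⟩ := exists_ballC_of_isCompact (isCompact_range f.continuous)
    have hN' : ∀ t, ∀ p ∉ ballC n N, (f t : Equiv.Perm (Phase n)) p = p :=
      fun t => hN (f t) (mem_range_self t)
    obtain ⟨s, hs, hs1, hsN⟩ := hfac N
    refine ⟨⟨fun t => dil_mk K (dil_map c s hs.ne' (f t))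
      (dil_supp_ball hball N hs hsN (f t) (hN' t)),
      dil_cont_mk (dil_cont c (fun _ : T => s) continuous_const (fun _ => hs.ne') f
        f.continuous) _⟩, ?_, ?_⟩
    · intro t ht
      change dil_map c s hs.ne' (f t) = 1
      rw [hf0 t ht]
      exact dir_map_id c s hs.ne'
    refine ⟨⟨⟨⟨fun p : I × T => dil_map c (1 - (p.1 : ℝ) * (1 - s))
      (dil_int_pos hs hs1 p.1).ne' (f p.2), ?_⟩, ?_, ?_⟩, ?_⟩⟩
    · exact dil_cont c (fun p : I × T => 1 - (p.1 : ℝ) * (1 - s))
        (continuous_const.sub ((continuous_subtype_val.comp continuous_fst).mul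
          continuous_const)) (fun p => (dil_int_pos hs hs1 p.1).ne') (fun p => f p.2)
        (f.continuous.comp continuous_snd)
    · intro t
      apply SympCt.ext'
      intro x
      change (dil_map c (1 - ((0 : I) : ℝ) * (1 - s)) _ (f t) : Equiv.Perm (Phase n)) x = _
      rw [dil_map_apply]
      simp
    · intro t
      apply SympCt.ext'
      intro x
      change (dil_map c (1 - ((1 : I) : ℝ) * (1 - s)) _ (f t) : Equiv.Perm (Phase n)) x =
        (dil_map c s hs.ne' (f t) : Equiv.Perm (Phase n)) x
      rw [dil_map_apply, dil_map_apply]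
      simp
    · intro u t ht
      change dil_map c (1 - (u : ℝ) * (1 - s)) (dil_int_pos hs hs1 u).ne' (f t) = f t
      rw [hf0 t ht]
      exact dir_map_id c _ _
  · intro f g hf0 hg0 ⟨H⟩
    obtain ⟨N, hN⟩ := exists_ballC_of_isCompact (isCompact_range H.continuous)
    have hN' : ∀ p, ∀ x ∉ ballC n N, (H p : Equiv.Perm (Phase n)) x = x :=
      fun p => hN (H p) (mem_range_self p)
    obtain ⟨s, hs, hs1, hsN⟩ := hfac N
    -- the dilated map
    set D : C(T, SympSupp n K) → C(T, SympSupp n K) := fun f =>
      ⟨fun t => dil_mk K (dil_map c s hs.ne' (SympSupp.incl K (f t)))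
        (dil_supp_convex hK hcK hs hs1 _ (dil_supp_incl (f t))),
        dil_cont_mk (dil_cont c (fun _ : T => s) continuous_const (fun _ => hs.ne')
          (fun t => SympSupp.incl K (f t)) (dil_cont_incl f.continuous)) _⟩ with hD
    have h1 : ∀ f : C(T, SympSupp n K), (∀ t ∈ T0, (f t).1 = 1) →
        f.HomotopicRel (D f) T0 := by
      intro f hf0
      refine ⟨⟨⟨⟨fun p : I × T => dil_mk K (dil_map c (1 - (p.1 : ℝ) * (1 - s))
        (dil_int_pos hs hs1 p.1).ne' (SympSupp.incl K (f p.2)))
        (dil_supp_convex hK hcK (dil_int_pos hs hs1 p.1) (dil_int_le hs1 p.1) _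
          (dil_supp_incl (f p.2))), ?_⟩, ?_, ?_⟩, ?_⟩⟩
      · exact dil_cont_mk (dil_cont c (fun p : I × T => 1 - (p.1 : ℝ) * (1 - s))
          (continuous_const.sub ((continuous_subtype_val.comp continuous_fst).mul
            continuous_const)) (fun p => (dil_int_pos hs hs1 p.1).ne')
          (fun p => SympSupp.incl K (f p.2))
          (dil_cont_incl (f.continuous.comp continuous_snd))) _
      · intro t
        apply SympSupp.incl_injective K
        apply SympCt.ext'
        intro x
        change (dil_map c (1 - ((0 : I) : ℝ) * (1 - s)) _ (SympSupp.incl K (f t)) :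
          Equiv.Perm (Phase n)) x = _
        rw [dil_map_apply]
        simp
      · intro t
        apply SympSupp.incl_injective K
        apply SympCt.ext'
        intro x
        change (dil_map c (1 - ((1 : I) : ℝ) * (1 - s)) _ (SympSupp.incl K (f t)) :
          Equiv.Perm (Phase n)) x =
          (dil_map c s hs.ne' (SympSupp.incl K (f t)) : Equiv.Perm (Phase n)) x
        rw [dil_map_apply, dil_map_apply]
        simp
      · intro u t ht
        apply SympSupp.incl_injective K
        change dil_map c (1 - (u : ℝ) * (1 - s)) (dil_int_pos hs hs1 u).ne'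
          (SympSupp.incl K (f t)) = SympSupp.incl K (f t)
        have e : SympSupp.incl K (f t) = 1 := hf0 t ht
        rw [e]
        exact dir_map_id c _ _
    have h2 : (D f).HomotopicRel (D g) T0 := by
      refine ⟨⟨⟨⟨fun p : I × T => dil_mk K (dil_map c s hs.ne' (H p))
        (dil_supp_ball hball N hs hsN (H p) (hN' p)), ?_⟩, ?_, ?_⟩, ?_⟩⟩
      · exact dil_cont_mk (dil_cont c (fun _ : I × T => s) continuous_const (fun _ => hs.ne') H
          H.continuous) _
      · intro t
        apply SympSupp.incl_injective K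
        change dil_map c s hs.ne' (H (0, t)) = dil_map c s hs.ne' (SympSupp.incl K (f t))
        rw [H.apply_zero]
        rfl
      · intro t
        apply SympSupp.incl_injective K
        change dil_map c s hs.ne' (H (1, t)) = dil_map c s hs.ne' (SympSupp.incl K (g t))
        rw [H.apply_one]
        rfl
      · intro u t ht
        apply SympSupp.incl_injective K
        change dil_map c s hs.ne' (H (u, t)) = dil_map c s hs.ne' (SympSupp.incl K (f t))
        rw [H.eq_fst u ht]
        rfl
    exact (h1 f hf0).trans (h2.trans (h1 g hg0).symm)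

end Pool.Agent.TOL
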