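import Mathlib
import Pool.Agent.TOL.Defs

set_option maxSynthPendingDepth 3

open scoped unitInterval
open Set Function TopologicalSpace

namespace Pool.Agent.TOL

open Pool.Agent.Helper17 Pool.Agent.TOR

variable {n N : ℕ}

/-- The inclusion into `G = Symp_ct(ℝ^{2n})` of the subgroup of the elements supported in `K`, as a
continuous map. -/
noncomputable def inclMap {n : ℕ} (K : Compacts (Phase n)) : C(SympSupp n K, SympCt n) :=
  ⟨SympSupp.incl K, SympSupp.continuous_incl K⟩

/-- `L (φ, θ)` is the iterated commutator of `P φ` with the translations by `θ_0 b_0`, …,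
`θ_{j-1} b_{j-1}`. -/
def IsCommMap (b : Module.Basis (Fin N) ℝ (Phase n)) {K : Compacts (Phase n)} {j : ℕ} (hj : j ≤ N)
    (P : C(SympSupp n K, TorusSymp b)) (L : C(SympSupp n K × (Fin j → I), TorusSymp b)) : Prop :=
  ∀ (φ : SympSupp n K) (θ : Fin j → I), (L (φ, θ) : Equiv.Perm (Phase n)) =
    word j (fun i => (θ i : ℝ) • b (Fin.castLE hj i)) (P φ)

/-- `f` is equal to the identity on `T0`. -/
def TrivOn {K : Compacts (Phase n)} {T : Type} [TopologicalSpace T] (T0 : Set T)
    (f : C(T, SympSupp n K)) : Prop :=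
  ∀ t ∈ T0, inclMap K (f t) = 1

/-- The maps `f` and `g` are homotopic in `G` relative to `T0`. -/
def HomG {K : Compacts (Phase n)} {T : Type} [TopologicalSpace T] (T0 : Set T)
    (f g : C(T, SympSupp n K)) : Prop :=
  ((inclMap K).comp f).HomotopicRel ((inclMap K).comp g) T0

/-- The maps `(t, θ) ↦ L (f t, θ)` and `(t, θ) ↦ L (g t, θ)` are homotopic in the group of
symplectomorphisms of the torus, relative to `T0 × I^j ∪ T × ∂I^j`. -/
def HomS {b : Module.Basis (Fin N) ℝ (Phase n)} {K : Compacts (Phase n)} {j : ℕ}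
    (L : C(SympSupp n K × (Fin j → I), TorusSymp b)) {T : Type} [TopologicalSpace T] (T0 : Set T)
    (f g : C(T, SympSupp n K)) : Prop :=
  (L.comp (f.prodMap (ContinuousMap.id (Fin j → I)))).HomotopicRel
    (L.comp (g.prodMap (ContinuousMap.id (Fin j → I))))
    {p : T × (Fin j → I) | p.1 ∈ T0 ∨ p.2 ∈ Cube.boundary (Fin j)}

end Pool.Agent.TOL
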