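import Mathlib
import Pool.Agent.TOL.Main
import Pool.Agent.TOL.AHc
import Pool.Agent.TOL.MoserLev
import Pool.Agent.TOL.Bij
import Pool.Agent.TOL.Sympl
import Pool.Agent.TOL.TameB
import Pool.Agent.TOL.Grid
import Pool.Agent.TOL.Trunc
import Pool.Agent.TOL.DilRel
import Pool.Agent.TOR.Box
import Pool.Agent.TOR.Pers
import Pool.Agent.TOR.TorTop

set_option maxSynthPendingDepth 3

namespace Pool.Agent.TOL

open Pool.Agent.Helper17

theorem deloop : St_DL :=
  thm_DL thm_AHc (thm_Sympl thm_MoserLev thm_Bij) (thm_Grid thm_TameB) thm_Trunc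

theorem main {n N : ℕ} (b : Module.Basis (Fin N) ℝ (Phase n)) : MainStatement b :=
  assemble deloop thm_DilRel TOR.thm_Pers (TOR.thm_TorTop TOR.thm_Box) b

end Pool.Agent.TOL
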